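import Mathlib
import Pool.Agent.Lib.H80Pseudo.CaseB

/-!
# MP_b5ec3e_gt Q2. Common definitions.
-/

open Set Filter Topology Cardinal

universe u

namespace Pool.Agent.H8Q

open Pool.Agent.H80Pseudo

/-- Every countable partial function `K → {0, 1}` is realised by a row `y`: the image of
`Y → {0, 1} ^ K` is `G_δ`-dense. -/
def ODense (Y K : Type*) : Prop :=
  ∃ d : Y → K → Bool, ∀ A : Set K, A.Countable → ∀ v : K → Bool, ∃ y, ∀ k ∈ A, d y k = v k

/-- The group topology induced by a set of characters. -/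
def charTop {G : Type*} [AddCommGroup G] (H : Set (G →+ Circ)) : TopologicalSpace G :=
  ⨅ h : H, TopologicalSpace.induced (h : G →+ Circ) inferInstance

/-- Every character of a countable subgroup of `H` is the evaluation at a point of `G`. -/
def RowsProp {G : Type*} [AddCommGroup G] (H : AddSubgroup (G →+ Circ)) : Prop :=
  ∀ S : AddSubgroup (G →+ Circ), S ≤ H → Countable S → ∀ v : S →+ Circ,
    ∃ g : G, ∀ h : S, (h : G →+ Circ) g = v h

/-- Every character of a countable subgroup of `W` is the restriction of a member of `H`. -/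
def ColsProp {G : Type*} [AddCommGroup G] (W : AddSubgroup G) (H : AddSubgroup (G →+ Circ)) : Prop :=
  ∀ N : AddSubgroup G, N ≤ W → Countable N → ∀ χ : N →+ Circ, ∃ h ∈ H, ∀ x : N, h (x : G) = χ x

/-- A sequence of characters in `H` which is independent in a weak sense. -/
def IndepSeq {G : Type*} [AddCommGroup G] (H : AddSubgroup (G →+ Circ)) : Prop :=
  ∃ f : ℕ → (G →+ Circ), (∀ n, f n ∈ H) ∧ ∀ n, ∃ g, (∀ m < n, f m g = 0) ∧ 1 / 3 ≤ ‖f n g‖

/-- The notion used in the induction. -/
structure GoodOn {G : Type*} [AddCommGroup G] (W : AddSubgroup G) (H : AddSubgroup (G →+ Circ)) :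
    Prop where
  rows : RowsProp H
  cols : ColsProp W H
  pc : @PseudocompactSp G (charTop (H : Set (G →+ Circ)))

/-- The subgroup `n G`. -/
abbrev mulG (G : Type*) [AddCommGroup G] (n : ℕ) : AddSubgroup G := (nsmulAddMonoidHom n : G →+ G).range

theorem mem_mulG {G : Type*} [AddCommGroup G] {n : ℕ} {x : G} : x ∈ mulG G n ↔ ∃ g, n • g = x :=
  Iff.rfl

end Pool.Agent.H8Q
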