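import Mathlib
import Pool.Agent.Lib.H8Q.M0

/-!
# Rows with values in the set of bit sequences and with labels
-/

open Set Filter Topology Cardinal

universe u

namespace Pool.Agent.H8Q

open Pool.Agent.H80Pseudo

theorem exists_equiv_sum {K : Type u} [Infinite K] : Nonempty ((K × ℕ) ⊕ ℕ ≃ K) := by
  have hK : ℵ₀ ≤ #K := Cardinal.aleph0_le_mk K
  have h : #((K × ℕ) ⊕ ℕ) = #K := by
    rw [Cardinal.mk_sum, Cardinal.mk_prod]
    simp only [Cardinal.mk_nat, Cardinal.lift_aleph0, Cardinal.lift_uzero]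
    rw [Cardinal.mul_aleph0_eq hK, Cardinal.add_eq_left hK hK]
  exact Cardinal.eq.1 h

theorem exists_surj {L : Type} [Nonempty L] (hL : #L ≤ Cardinal.continuum) :
    ∃ g : (ℕ → Bool) → L, Function.Surjective g := by
  have h : #L ≤ #(ℕ → Bool) := by
    refine hL.trans (le_of_eq ?_)
    simp
  obtain ⟨f⟩ := Cardinal.le_def _ _ |>.1 h
  exact ⟨Function.invFun f, Function.invFun_surjective f.injective⟩

/-- The values of the rows may be bit sequences, and every row has a label. -/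
theorem exists_rows {Y K : Type u} [Infinite K] (h : ODense Y K) {L : Type} [Nonempty L]
    (hL : #L ≤ Cardinal.continuum) :
    ∃ (d : Y → K → ℕ → Bool) (t : Y → L), ∀ A : Set K, A.Countable →
      ∀ (ρ : K → ℕ → Bool) (l : L), ∃ y, t y = l ∧ ∀ k ∈ A, d y k = ρ k := by
  obtain ⟨d0, hd0⟩ := h
  obtain ⟨σ⟩ := exists_equiv_sum (K := K)
  obtain ⟨g, hg⟩ := exists_surj hL
  refine ⟨fun y k n => d0 y (σ (Sum.inl (k, n))), fun y => g fun n => d0 y (σ (Sum.inr n)), ?_⟩
  intro A hA ρ l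
  obtain ⟨x, rfl⟩ := hg l
  let B : Set ((K × ℕ) ⊕ ℕ) := Sum.inl '' (A ×ˢ (Set.univ : Set ℕ)) ∪ Sum.inr '' (Set.univ : Set ℕ)
  have hB : (σ '' B).Countable := by
    apply Set.Countable.image
    exact ((hA.prod Set.countable_univ).image _).union (Set.countable_univ.image _)
  obtain ⟨y, hy⟩ := hd0 (σ '' B) hB fun k => Sum.elim (fun q : K × ℕ => ρ q.1 q.2) x (σ.symm k)
  refine ⟨y, ?_, ?_⟩
  · have e : (fun n => d0 y (σ (Sum.inr n))) = x := by
      funext n
      have := hy (σ (Sum.inr n)) ⟨_, Or.inr ⟨n, trivial, rfl⟩, rfl⟩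
      simpa using this
    exact congrArg g e
  · intro k hk
    funext n
    have := hy (σ (Sum.inl (k, n))) ⟨_, Or.inl ⟨(k, n), ⟨hk, trivial⟩, rfl⟩, rfl⟩
    simpa using this

/-- A countable set can be mapped injectively to the bit sequences, avoiding a countable set. -/
theorem exists_inj_avoid {K : Type u} {R : Set K} (hR : R.Countable) {C : Set (ℕ → Bool)}
    (hC : C.Countable) : ∃ ρ : K → ℕ → Bool, Set.InjOn ρ R ∧ ∀ k ∈ R, ρ k ∉ C := by
  classical
  have hinf : (Cᶜ : Set (ℕ → Bool)).Infinite := by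
    intro hfin
    have h1 : (Set.univ : Set (ℕ → Bool)).Countable := by
      rw [← Set.union_compl_self C]
      exact hC.union hfin.countable
    have h2 : Countable (ℕ → Bool) := Set.countable_univ_iff.1 h1
    have h3 : #(ℕ → Bool) ≤ ℵ₀ := Cardinal.mk_le_aleph0
    have h4 : #(ℕ → Bool) = Cardinal.continuum := by
      rw [← Cardinal.power_def, Cardinal.mk_bool, Cardinal.mk_nat, Cardinal.two_power_aleph0]
    rw [h4] at h3
    exact absurd h3 (not_le.2 Cardinal.aleph0_lt_continuum)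
  have := hinf.to_subtype
  obtain ⟨f⟩ : Nonempty (ℕ ↪ (Cᶜ : Set (ℕ → Bool))) := ⟨Infinite.natEmbedding _⟩
  have := hR.to_subtype
  obtain ⟨g, hg⟩ := exists_injective_nat R
  refine ⟨fun k => if h : k ∈ R then (f (g ⟨k, h⟩) : ℕ → Bool) else fun _ => false, ?_, ?_⟩
  · intro k hk k' hk' h
    simp only [hk, hk', dif_pos] at h
    have h1 := f.injective (Subtype.ext h)
    have h2 := hg h1
    exact congrArg Subtype.val h2
  · intro k hk
    simp only [hk, dif_pos]
    exact (f (g ⟨k, hk⟩)).2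

end Pool.Agent.H8Q
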