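import Mathlib
import Pool.Agent.Lib.H8Q.M1

/-!
# The columns
-/

open Set Filter Topology Cardinal

universe u

namespace Pool.Agent.H8Q

open Pool.Agent.H80Pseudo

open Classical in
/-- A character of `ℕ → Circ` with the values `c n` at the points `z n`, if there is one. -/
noncomputable def phi (z : ℕ → ℕ → Circ) (c : ℕ → Circ) : (ℕ → Circ) →+ Circ :=
  if h : ∃ φ : (ℕ → Circ) →+ Circ, ∀ n, φ (z n) = c n then h.choose else 0

theorem phi_spec {z : ℕ → ℕ → Circ} {c : ℕ → Circ}
    (h : ∃ φ : (ℕ → Circ) →+ Circ, ∀ n, φ (z n) = c n) (n : ℕ) : phi z c (z n) = c n := by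
  unfold phi
  rw [dif_pos h]
  exact h.choose_spec n

/-- The homomorphism with the coordinates `a (s n)`. -/
def coord {G : Type*} [AddCommGroup G] {K : Type*} (a : K → G →+ Circ) (s : ℕ → K) :
    G →+ (ℕ → Circ) where
  toFun x n := a (s n) x
  map_zero' := funext fun n => map_zero _
  map_add' x y := funext fun n => map_add _ _ _

theorem exists_phi {G : Type*} [AddCommGroup G] {K : Type*} (a : K → G →+ Circ) (s : ℕ → K)
    (w : ℕ → G) (χ : G →+ Circ)
    (h : ∀ x ∈ AddSubgroup.closure (Set.range w), (∀ n, a (s n) x = 0) → χ x = 0) :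
    ∃ φ : (ℕ → Circ) →+ Circ, ∀ n, φ (coord a s (w n)) = χ (w n) := by
  let N := AddSubgroup.closure (Set.range w)
  let q : N →+ (ℕ → Circ) := (coord a s).comp N.subtype
  have hker : q.ker ≤ (χ.comp N.subtype).ker := by
    intro x hx
    rw [AddMonoidHom.mem_ker] at hx ⊢
    exact h x.1 x.2 fun n => congrFun hx n
  let g0 : N ⧸ q.ker →+ Circ := QuotientAddGroup.lift q.ker (χ.comp N.subtype) hker
  let g : q.range →+ Circ := g0.comp (QuotientAddGroup.quotientKerEquivRange q).symm.toAddMonoidHom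
  obtain ⟨φ, hφ⟩ := exists_extension q.range.subtype Subtype.val_injective g
  refine ⟨φ, fun n => ?_⟩
  let x : N := ⟨w n, AddSubgroup.subset_closure ⟨n, rfl⟩⟩
  have h1 : coord a s (w n) = q.range.subtype ⟨q x, ⟨x, rfl⟩⟩ := rfl
  rw [h1, hφ]
  have h2 : (QuotientAddGroup.quotientKerEquivRange q).symm ⟨q x, ⟨x, rfl⟩⟩ = (x : N ⧸ q.ker) := by
    rw [AddEquiv.symm_apply_eq]
    rfl
  change g0 ((QuotientAddGroup.quotientKerEquivRange q).symm ⟨q x, ⟨x, rfl⟩⟩) = _
  rw [h2]
  rfl

/-- The data of a column: a list of codes, and points with prescribed values. -/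
abbrev UU : Type := (ℕ → ℕ → ℕ → Bool) × ((ℕ → ℕ → Circ) × (ℕ → Circ))

/-- The columns. -/
abbrev Col (K : Type u) : Type u := (ℕ → K) × UU

/-- The labels of the rows: lists of columns (seen through the row) with values. -/
abbrev Lab : Type := ℕ → (((ℕ → ℕ → Bool) × UU) × Circ)

theorem mk_UU_le : #UU ≤ Cardinal.continuum := by
  have h1 : #(ℕ → Bool) ≤ Cardinal.continuum := by
    rw [← Cardinal.power_def, Cardinal.mk_bool, Cardinal.mk_nat, Cardinal.two_power_aleph0]
  have h2 := mk_fun_nat_le (mk_fun_nat_le h1)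
  exact mk_prod_le h2 (mk_prod_le (mk_fun_nat_le (mk_fun_nat_le mk_circ_le)) (mk_fun_nat_le mk_circ_le))

theorem mk_Lab_le' : #Lab ≤ Cardinal.continuum := by
  have h1 : #(ℕ → Bool) ≤ Cardinal.continuum := by
    rw [← Cardinal.power_def, Cardinal.mk_bool, Cardinal.mk_nat, Cardinal.two_power_aleph0]
  exact mk_fun_nat_le (mk_prod_le (mk_prod_le (mk_fun_nat_le h1) mk_UU_le) mk_circ_le)

section Block

variable {G Y K E : Type*} [AddCommGroup G] [AddCommGroup E] (e : ℕ) (δ : Circ → (E →+ Circ))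
  (a : K → G →+ Circ) (b : Y → G) (d : Y → K → ℕ → Bool) (t : Y → Lab)

open Classical in
/-- The value prescribed by the label of the row `y` at the column `i` (`0` if there is none). -/
noncomputable def want (i : (ℕ → K) × UU) (y : Y) : Circ :=
  if h : ∃ n, (t y n).1 = (fun n => d y (i.1 n), i.2) then (t y (Nat.find h)).2
  else phi i.2.2.1 i.2.2.2 (coord a i.1 (b y))

open Classical in
/-- The generic part of the column `i` at the row `y`. -/
noncomputable def gam (i : (ℕ → K) × UU) (y : Y) : E →+ Circ :=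
  if ∃ m, i.2.1 m = fun n => d y (i.1 n) then 0
  else δ (want a b d t i y - phi i.2.2.1 i.2.2.2 (coord a i.1 (b y)))

/-- The column `i`. -/
noncomputable def col (π : G →+ (Y →₀ E)) (i : (ℕ → K) × UU) : G →+ Circ :=
  (phi i.2.2.1 i.2.2.2).comp (coord a i.1) +
    (Finsupp.liftAddHom (gam δ a b d t i)).comp π

end Block

end Pool.Agent.H8Q
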