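import Mathlib
import Pool.Agent.Lib.H8Q.M2

/-!
# The block theorem
-/

open Set Filter Topology Cardinal

universe u

namespace Pool.Agent.H8Q

open Pool.Agent.H80Pseudo

section Block

variable {G Y K E : Type u} [AddCommGroup G]

theorem col_apply {E : Type*} [AddCommGroup E] (δ : Circ → (E →+ Circ)) (a : K → G →+ Circ)
    (b : Y → G) (d : Y → K → ℕ → Bool) (t : Y → Lab) (π : G →+ (Y →₀ E)) (i : (ℕ → K) × UU) (g : G) :
    col δ a b d t π i g = phi i.2.2.1 i.2.2.2 (coord a i.1 g) +
      (π g).sum fun y q => gam δ a b d t i y q := by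
  unfold col
  rw [AddMonoidHom.add_apply, AddMonoidHom.comp_apply, AddMonoidHom.comp_apply]
  rfl

theorem smul_phi_coord (e : ℕ) (a : K → G →+ Circ) (ha : ∀ k g, e • a k g = 0)
    (z : ℕ → ℕ → Circ) (c : ℕ → Circ) (s : ℕ → K) (g : G) : e • phi z c (coord a s g) = 0 := by
  rw [← map_nsmul]
  have : e • coord a s g = 0 := by
    funext n
    exact ha (s n) g
  rw [this, map_zero]

/-- Independence of the columns on the rows. -/
theorem col_rows {E : Type*} [AddCommGroup E] (one : E) (e : ℕ) (δ : Circ → (E →+ Circ))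
    (hδ : ∀ c, e • c = 0 → δ c one = c) (a : K → G →+ Circ) (ha : ∀ k g, e • a k g = 0)
    (b : Y → G) (d : Y → K → ℕ → Bool) (t : Y → Lab) (π : G →+ (Y →₀ E))
    (hπ : ∀ y, π (b y) = Finsupp.single y one)
    (hd : ∀ A : Set K, A.Countable → ∀ (ρ : K → ℕ → Bool) (l : Lab), ∃ y, t y = l ∧
      ∀ k ∈ A, d y k = ρ k)
    (A : Set (Col K)) (hA : A.Countable) (v : Col K → Circ) (hv : ∀ i, e • v i = 0) :
    ∃ y, ∀ i ∈ A, col δ a b d t π i (b y) = v i := by
  classical
  rcases A.eq_empty_or_nonempty with rfl | hne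
  · obtain ⟨y, -⟩ := hd ∅ Set.countable_empty (fun _ _ => false) (fun _ => ((fun _ _ => false,
      (fun _ _ _ => false, (fun _ _ => 0, fun _ => 0))), 0))
    exact ⟨y, fun i hi => absurd hi (Set.notMem_empty i)⟩
  obtain ⟨i, rfl⟩ := hA.exists_eq_range hne
  have hR : (⋃ n, Set.range (i n).1).Countable :=
    Set.countable_iUnion fun n => Set.countable_range _
  have hC : (⋃ n, Set.range fun m => (i n).2.1 m 0).Countable :=
    Set.countable_iUnion fun n => Set.countable_range _
  obtain ⟨ρ, hρ, hρC⟩ := exists_inj_avoid hR hC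
  obtain ⟨y, hty, hdy⟩ := hd _ hR ρ (fun n => ((fun k => ρ ((i n).1 k), (i n).2), v (i n)))
  refine ⟨y, ?_⟩
  rintro _ ⟨n, rfl⟩
  have hmem : ∀ n k, (i n).1 k ∈ ⋃ n, Set.range (i n).1 :=
    fun n k => Set.mem_iUnion.2 ⟨n, k, rfl⟩
  have hdρ : ∀ n k, d y ((i n).1 k) = ρ ((i n).1 k) := fun n k => hdy _ (hmem n k)
  have hnot : ¬ ∃ m, (i n).2.1 m = fun k => d y ((i n).1 k) := by
    rintro ⟨m, hm⟩
    have h1 := congrFun hm 0
    rw [hdρ n 0] at h1
    apply hρC _ (hmem n 0)
    rw [← h1]
    exact Set.mem_iUnion.2 ⟨n, m, rfl⟩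
  have hex : ∃ m, (t y m).1 = (fun k => d y ((i n).1 k), (i n).2) := by
    refine ⟨n, ?_⟩
    rw [hty]
    exact Prod.ext (funext fun k => (hdρ n k).symm) rfl
  have hwant : want a b d t (i n) y = v (i n) := by
    unfold want
    rw [dif_pos hex]
    have h1 := Nat.find_spec hex
    have key : ∀ m, t y m = ((fun k => ρ ((i m).1 k), (i m).2), v (i m)) := fun m => congrFun hty m
    generalize Nat.find hex = m at h1
    rw [key m] at h1 ⊢
    have h2 : (i m).2 = (i n).2 := (Prod.ext_iff.1 h1).2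
    have h3 : (i m).1 = (i n).1 := by
      funext k
      have h4 := congrFun (Prod.ext_iff.1 h1).1 k
      have h5 : ρ ((i m).1 k) = ρ ((i n).1 k) := by
        rw [← hdρ n k]
        exact h4
      exact hρ (hmem m k) (hmem n k) h5
    have h6 : i m = i n := Prod.ext h3 h2
    exact congrArg v h6
  have hgam : gam δ a b d t (i n) y =
      δ (v (i n) - phi (i n).2.2.1 (i n).2.2.2 (coord a (i n).1 (b y))) := by
    unfold gam
    rw [if_neg hnot, hwant]
  have hsum : (Finsupp.single y one).sum (fun y q => gam δ a b d t (i n) y q) =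
      gam δ a b d t (i n) y one := Finsupp.sum_single_index (map_zero _)
  rw [col_apply, hπ, hsum, hgam, hδ, add_sub_cancel]
  rw [smul_sub, hv, smul_phi_coord e a ha, sub_zero]

/-- The extension property of the columns. -/
theorem col_cols [Nonempty K] {E : Type*} [AddCommGroup E] (δ : Circ → (E →+ Circ))
    (a : K → G →+ Circ) (b : Y → G) (d : Y → K → ℕ → Bool) (t : Y → Lab) (π : G →+ (Y →₀ E))
    (w : ℕ → G) (χ : G →+ Circ)
    (h : ∀ x ∈ AddSubgroup.closure (Set.range w), (∀ k, a k x = 0) → χ x = 0) :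
    ∃ i, ∀ n, col δ a b d t π i (w n) = χ (w n) := by
  classical
  -- the coordinates
  have hcN := countable_closure (Set.countable_range w)
  obtain ⟨x, hx⟩ := exists_surjective_nat (AddSubgroup.closure (Set.range w))
  let s : ℕ → K := fun n => if h : ∃ k, a k (x n : G) ≠ 0 then h.choose else Classical.arbitrary K
  have hs : ∀ n, a (s n) (x n : G) = 0 → ∀ k, a k (x n : G) = 0 := by
    intro n hn k
    by_contra hk
    have h1 : ∃ k, a k (x n : G) ≠ 0 := ⟨k, hk⟩
    have h2 : s n = h1.choose := dif_pos h1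
    rw [h2] at hn
    exact h1.choose_spec hn
  have hs' : ∀ y ∈ AddSubgroup.closure (Set.range w), (∀ n, a (s n) y = 0) → χ y = 0 := by
    intro y hy h0
    obtain ⟨n, hn⟩ := hx ⟨y, hy⟩
    have h1 : (x n : G) = y := congrArg Subtype.val hn
    apply h y hy
    rw [← h1]
    apply hs
    rw [h1]
    exact h0 n
  have hφ := exists_phi a s w χ hs'
  -- the list
  have hS : (⋃ n, ((π (w n)).support : Set Y)).Countable :=
    Set.countable_iUnion fun n => (Finset.countable_toSet _)
  obtain ⟨l, hl⟩ : ∃ l : ℕ → ℕ → ℕ → Bool, ∀ y ∈ ⋃ n, ((π (w n)).support : Set Y),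
      ∃ m, l m = fun k => d y (s k) := by
    rcases (⋃ n, ((π (w n)).support : Set Y)).eq_empty_or_nonempty with h0 | hne
    · refine ⟨fun _ _ _ => false, fun y hy => ?_⟩
      rw [h0] at hy
      exact absurd hy (Set.notMem_empty y)
    · obtain ⟨y, hy⟩ := hS.exists_eq_range hne
      refine ⟨fun m k => d (y m) (s k), fun z hz => ?_⟩
      rw [hy] at hz
      obtain ⟨m, rfl⟩ := hz
      exact ⟨m, rfl⟩
  refine ⟨(s, (l, (fun n => coord a s (w n), fun n => χ (w n)))), fun n => ?_⟩
  rw [col_apply]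
  have h1 : (phi (fun n => coord a s (w n)) fun n => χ (w n)) (coord a s (w n)) = χ (w n) :=
    phi_spec hφ n
  have h2 : ((π (w n)).sum fun y q => gam δ a b d t
      (s, (l, (fun n => coord a s (w n), fun n => χ (w n)))) y q) = 0 := by
    apply Finset.sum_eq_zero
    intro y hy
    have h3 : ∃ m, l m = fun k => d y (s k) := hl y (Set.mem_iUnion.2 ⟨n, hy⟩)
    have h4 : gam δ a b d t (s, (l, (fun n => coord a s (w n), fun n => χ (w n)))) y = 0 := by
      unfold gam
      exact if_pos h3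
    change gam δ a b d t _ y _ = 0
    rw [h4]
    rfl
  rw [h2, add_zero]
  exact h1

end Block

/-- **Block theorem.** -/
theorem block {G : Type u} [AddCommGroup G] {Y K : Type u} [Infinite K] (hYK : ODense Y K)
    (e : ℕ) {E : Type} [AddCommGroup E] (one : E) (hE : ∀ x : E, e • x = 0)
    (hδ : ∀ c : Circ, e • c = 0 → ∃ f : E →+ Circ, f one = c)
    (a : K → G →+ Circ) (ha : ∀ k g, e • a k g = 0) (b : Y → G) (π : G →+ (Y →₀ E))
    (hπ : ∀ y, π (b y) = Finsupp.single y one) :
    ∃ (I : Type u) (_ : Infinite I) (F : I → G →+ Circ), (∀ i g, e • F i g = 0) ∧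
      (∀ A : Set I, A.Countable → ∀ v : I → Circ, (∀ i, e • v i = 0) →
        ∃ y, ∀ i ∈ A, F i (b y) = v i) ∧
      (∀ (w : ℕ → G) (χ : G →+ Circ),
        (∀ x ∈ AddSubgroup.closure (Set.range w), (∀ k, a k x = 0) → χ x = 0) →
        ∃ i, ∀ n, F i (w n) = χ (w n)) := by
  classical
  obtain ⟨d, t, hd⟩ := exists_rows hYK mk_Lab_le'
  let δ : Circ → (E →+ Circ) := fun c => if h : e • c = 0 then (hδ c h).choose else 0
  have hδ' : ∀ c, e • c = 0 → δ c one = c := by
    intro c hc
    have h1 : δ c = (hδ c hc).choose := dif_pos hc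
    rw [h1]
    exact (hδ c hc).choose_spec
  refine ⟨Col K, inferInstance, fun i => col δ a b d t π i, ?_, ?_, ?_⟩
  · intro i g
    rw [col_apply, smul_add, smul_phi_coord e a ha, zero_add]
    have h1 : (π g).sum (fun y q => gam δ a b d t i y q) =
        Finsupp.liftAddHom (gam δ a b d t i) (π g) := rfl
    rw [h1, ← map_nsmul]
    have h2 : e • π g = 0 := by
      ext y
      exact hE _
    rw [h2, map_zero]
  · intro A hA v hv
    exact col_rows one e δ hδ' a ha b d t π hπ hd A hA v hv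
  · intro w χ h
    exact col_cols δ a b d t π w χ h

end Pool.Agent.H8Q
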