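import Mathlib
import Pool.Agent.Lib.H8Q.M0
import Pool.Agent.Lib.H80Pseudo.Alg
import Pool.Agent.Lib.H80Pseudo.CaseC4

/-!
# Separating families of characters
-/

open Set Filter Topology Cardinal

universe u

namespace Pool.Agent.H8Q

open Pool.Agent.H80Pseudo

/-- Few characters separate the points of a direct sum. -/
theorem sep_finsupp {X K : Type u} (hX : #X ≤ 2 ^ #K) {E : Type} [AddCommGroup E]
    (θ : E →+ Circ) (hθ : Function.Injective θ) :
    ∃ l : Finset K × Finset K → ((X →₀ E) →+ Circ), ∀ v ≠ 0, ∃ i, l i v ≠ 0 := by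
  classical
  rw [← Cardinal.mk_set] at hX
  obtain ⟨em⟩ := (Cardinal.le_def _ _).1 hX
  have hem : Function.Injective em := em.injective
  let c : Finset K × Finset K → X → (E →+ Circ) := fun i x =>
    if i.1.filter (fun s => s ∈ em x) = i.2 then θ else 0
  refine ⟨fun i => Finsupp.liftAddHom (c i), ?_⟩
  intro v hv
  obtain ⟨x₀, hx₀⟩ := Finsupp.support_nonempty_iff.2 hv
  have hsep : ∀ x : X, ∃ s : Option K, x ≠ x₀ → ∃ k, s = some k ∧ ¬ (k ∈ em x ↔ k ∈ em x₀) := by
    intro x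
    by_cases hx : x = x₀
    · exact ⟨none, fun h' => absurd hx h'⟩
    · have hne : em x ≠ em x₀ := fun h' => hx (hem h')
      have h1 : ¬ ∀ s, s ∈ em x ↔ s ∈ em x₀ := fun h' => hne (Set.ext h')
      rw [not_forall] at h1
      obtain ⟨s, hs⟩ := h1
      exact ⟨some s, fun _ => ⟨s, rfl, hs⟩⟩
  choose sp hsp using hsep
  let E₀ : Finset K := v.support.biUnion fun x => (sp x).toFinset
  let E' : Finset K := E₀.filter (fun s => s ∈ em x₀)
  refine ⟨(E₀, E'), ?_⟩
  have hval : Finsupp.liftAddHom (c (E₀, E')) v = θ (v x₀) := by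
    rw [Finsupp.liftAddHom_apply, Finsupp.sum, Finset.sum_eq_single x₀]
    · have : c (E₀, E') x₀ = θ := if_pos rfl
      rw [this]
    · intro x hx hxx
      obtain ⟨k, hk, hk2⟩ := hsp x hxx
      have h3 : c (E₀, E') x = 0 := by
        refine if_neg fun heq => hk2 ?_
        have h1 : k ∈ E₀ := Finset.mem_biUnion.2 ⟨x, hx, by rw [hk]; simp⟩
        have h2 : k ∈ E₀.filter (fun s => s ∈ em x) ↔ k ∈ E₀.filter (fun s => s ∈ em x₀) := by
          have heq' : E₀.filter (fun s => s ∈ em x) = E₀.filter (fun s => s ∈ em x₀) := heq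
          rw [heq']
        simpa [h1] using h2
      rw [h3]
      rfl
    · intro hx
      exact absurd hx₀ hx
  rw [hval]
  intro h0
  have h1 : v x₀ = 0 := hθ (by rw [h0, map_zero])
  exact Finsupp.mem_support_iff.1 hx₀ h1

theorem exists_theta_rat : ∃ θ : ℚ →+ Circ, Function.Injective θ := by
  let θ : ℚ →+ Circ := (QuotientAddGroup.mk' (AddSubgroup.zmultiples (1 : ℝ))).comp
    ((AddMonoidHom.mulRight (√2 : ℝ)).comp (Rat.castHom ℝ).toAddMonoidHom)
  refine ⟨θ, ?_⟩
  rw [injective_iff_map_eq_zero]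
  intro q hq
  have h1 : (((q : ℝ) * √2 : ℝ) : Circ) = 0 := hq
  rw [AddCircle.coe_eq_zero_iff] at h1
  obtain ⟨n, hn⟩ := h1
  by_contra hq0
  have hirr : Irrational ((q : ℝ) * √2) := irrational_sqrt_two.ratCast_mul hq0
  apply hirr
  refine ⟨(n : ℚ), ?_⟩
  rw [← hn]
  simp

theorem sep_prime_aux {p : ℕ} [Fact p.Prime] {V K : Type u} [AddCommGroup V] [Module (ZMod p) V]
    (hV : #V ≤ 2 ^ #K) :
    ∃ l : Finset K × Finset K → (V →+ Circ), ∀ v ≠ 0, ∃ i, l i v ≠ 0 := by
  let B : Module.Basis (Module.Basis.ofVectorSpaceIndex (ZMod p) V) (ZMod p) V :=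
    Module.Basis.ofVectorSpace (ZMod p) V
  have hX : #(Module.Basis.ofVectorSpaceIndex (ZMod p) V) ≤ 2 ^ #K :=
    (Cardinal.mk_le_of_injective B.injective).trans hV
  obtain ⟨l, hl⟩ := sep_finsupp hX (ZMod.toAddCircle : ZMod p →+ Circ) (ZMod.toAddCircle_injective p)
  refine ⟨fun i => (l i).comp B.repr.toAddEquiv.toAddMonoidHom, fun v hv => ?_⟩
  have hrv : B.repr v ≠ 0 := fun h0 => hv (B.repr.map_eq_zero_iff.1 h0)
  exact hl _ hrv

/-- Few characters separate the points of an elementary group. -/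
theorem sep_prime {p : ℕ} (hp : p.Prime) {V K : Type u} [AddCommGroup V] (hpV : ∀ v : V, p • v = 0)
    (hV : #V ≤ 2 ^ #K) :
    ∃ l : Finset K × Finset K → (V →+ Circ), ∀ v ≠ 0, ∃ i, l i v ≠ 0 :=
  @sep_prime_aux p ⟨hp⟩ V K _ (AddCommGroup.zmodModule hpV) hV

/-- **Separation.** -/
theorem exists_separating {V K : Type u} [AddCommGroup V] [Infinite K] (hV : #V ≤ 2 ^ #K) :
    ∃ a : K → V →+ Circ, ∀ v ≠ 0, ∃ k, a k v ≠ 0 := by
  classical
  obtain ⟨ι, b, ψ, hb, htor⟩ := exists_psi V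
  have hι : #ι ≤ 2 ^ #K := by
    have hinj : Function.Injective b := by
      intro i j hij
      have h1 : ψ (b i) = ψ (b j) := by rw [hij]
      rw [hb, hb] at h1
      by_contra hne
      have h2 := DFunLike.congr_fun h1 i
      rw [Finsupp.single_eq_same, Finsupp.single_eq_of_ne hne] at h2
      exact one_ne_zero h2
    exact (Cardinal.mk_le_of_injective hinj).trans hV
  obtain ⟨θ, hθ⟩ := exists_theta_rat
  obtain ⟨l0, hl0⟩ := sep_finsupp hι θ hθ
  have hsoc : ∀ p : {p : ℕ // p.Prime}, ∃ k : Finset K × Finset K → V →+ Circ,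
      ∀ g : V, (p : ℕ) • g = 0 → g ≠ 0 → ∃ i, k i g ≠ 0 := by
    intro p
    have hcard : #(soc V p 0) ≤ 2 ^ #K :=
      (Cardinal.mk_le_of_injective (f := ((↑) : soc V p 0 → V)) Subtype.val_injective).trans hV
    obtain ⟨l, hl⟩ := sep_prime p.2 (V := soc V p 0)
      (fun v => Subtype.ext (mem_soc.1 v.2).1) hcard
    choose k hk using fun i => exists_extension (soc V p 0).subtype Subtype.val_injective (l i)
    refine ⟨k, fun g hg hg0 => ?_⟩
    have hgs : g ∈ soc V p 0 := ⟨hg, g, by rw [pow_zero, one_smul]⟩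
    obtain ⟨i, hi⟩ := hl ⟨g, hgs⟩ (fun h => hg0 (congrArg Subtype.val h))
    refine ⟨i, ?_⟩
    have h2 := hk i ⟨g, hgs⟩
    have h3 : k i g = l i ⟨g, hgs⟩ := h2
    rw [h3]
    exact hi
  choose k hk using hsoc
  let I := Option {p : ℕ // p.Prime} × (Finset K × Finset K)
  let fam : I → V →+ Circ := fun i => match i.1 with
    | none => (l0 i.2).comp ψ
    | some p => k p i.2
  have hfam : ∀ v ≠ 0, ∃ i, fam i v ≠ 0 := by
    intro v hv
    by_cases h0 : ψ v = 0
    · obtain ⟨n, hn, hmem⟩ := htor v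
      have hnv : n • v = 0 := by
        apply eq_zero_of_mem_closure hb hmem
        rw [map_nsmul, h0, smul_zero]
      have hn1 : addOrderOf v ≠ 1 := fun h => hv (AddMonoid.addOrderOf_eq_one_iff.1 h)
      obtain ⟨p, hp, hpn⟩ := Nat.exists_prime_and_dvd hn1
      obtain ⟨m, hm⟩ := hpn
      have hpos : 0 < addOrderOf v :=
        addOrderOf_pos_iff.2 (isOfFinAddOrder_iff_nsmul_eq_zero.2 ⟨n, hn, hnv⟩)
      have h2 : m • v ≠ 0 := by
        intro h0
        have h3 := addOrderOf_dvd_of_nsmul_eq_zero h0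
        have hm0 : 0 < m := by
          rcases Nat.eq_zero_or_pos m with h | h
          · rw [h, mul_zero] at hm; omega
          · exact h
        have h4 := Nat.le_of_dvd hm0 h3
        rw [hm] at h4
        have := hp.two_le
        nlinarith
      have h3 : p • (m • v) = 0 := by
        rw [smul_smul, ← hm]
        exact addOrderOf_nsmul_eq_zero v
      obtain ⟨i, hi⟩ := hk ⟨p, hp⟩ (m • v) h3 h2
      refine ⟨(some ⟨p, hp⟩, i), fun h5 => hi ?_⟩
      rw [map_nsmul]
      have h6 : k ⟨p, hp⟩ i v = 0 := h5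
      rw [h6, smul_zero]
    · obtain ⟨i, hi⟩ := hl0 _ h0
      exact ⟨(none, i), hi⟩
  have hI : #I ≤ #K := by
    have h0 : Cardinal.aleph0 ≤ #K := Cardinal.aleph0_le_mk K
    have h2 : #(Finset K) = #K := Cardinal.mk_finset_of_infinite _
    have h4 : Cardinal.lift.{u} #(Option {p : ℕ // p.Prime}) ≤ #K := by
      refine le_trans ?_ h0
      rw [Cardinal.lift_le_aleph0]
      exact Cardinal.mk_le_aleph0
    have h3 : #I = Cardinal.lift.{u} #(Option {p : ℕ // p.Prime}) * (#K * #K) := by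
      simp only [I, Cardinal.mk_prod, Cardinal.lift_id, h2, Cardinal.lift_uzero]
    rw [h3, Cardinal.mul_eq_self h0]
    calc _ ≤ #K * #K := mul_le_mul' h4 le_rfl
      _ = _ := Cardinal.mul_eq_self h0
  obtain ⟨em⟩ := (Cardinal.le_def _ _).1 hI
  have hIne : Nonempty I := ⟨(none, ∅, ∅)⟩
  let s : K → I := Function.invFun em
  have hs : Function.Surjective s := Function.invFun_surjective em.injective
  refine ⟨fun x => fam (s x), fun v hv => ?_⟩
  obtain ⟨i, hi⟩ := hfam v hv
  obtain ⟨x, rfl⟩ := hs i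
  exact ⟨x, hi⟩

/-- A separating family modulo `e G`: characters of `G` killed by `e`. -/
theorem exists_separating_mod {G K : Type u} [AddCommGroup G] [Infinite K] (e : ℕ)
    (W : AddSubgroup G) (hW : #W ≤ 2 ^ #K) :
    ∃ a : K → G →+ Circ, (∀ k g, e • a k g = 0) ∧
      ∀ x ∈ W, (∀ k, a k x = 0) → ∃ g, e • g = x := by
  classical
  let q : G →+ G ⧸ mulG G e := QuotientAddGroup.mk' (mulG G e)
  let W' : AddSubgroup (G ⧸ mulG G e) := W.map q
  have hW' : #W' ≤ 2 ^ #K := by
    have hs : Function.Surjective (fun x : W => (⟨q x, ⟨x, x.2, rfl⟩⟩ : W')) := by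
      rintro ⟨_, x, hx, rfl⟩
      exact ⟨⟨x, hx⟩, rfl⟩
    exact (Cardinal.mk_le_of_surjective hs).trans hW
  obtain ⟨a', ha'⟩ := exists_separating (K := K) hW'
  choose a ha using fun k => exists_extension W'.subtype Subtype.val_injective (a' k)
  refine ⟨fun k => (a k).comp q, fun k g => ?_, fun x hx h => ?_⟩
  · have h1 : e • q g = 0 := by
      rw [← map_nsmul]
      exact (QuotientAddGroup.eq_zero_iff _).2 ⟨g, rfl⟩
    change e • a k (q g) = 0
    rw [← map_nsmul, h1, map_zero]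
  · by_contra hcon
    have hne : (⟨q x, ⟨x, hx, rfl⟩⟩ : W') ≠ 0 := by
      intro h0
      have h1 : q x = 0 := congrArg Subtype.val h0
      exact hcon ((QuotientAddGroup.eq_zero_iff x).1 h1)
    obtain ⟨k, hk⟩ := ha' _ hne
    apply hk
    rw [← ha k]
    exact h k

end Pool.Agent.H8Q
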