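import Mathlib
import Pool.Agent.Lib.H8Q.M0
import Pool.Agent.Lib.H80Pseudo.CaseC4

/-!
# Joining a strongly independent family to a good group of characters
-/

open Set Filter Topology Cardinal

universe u

namespace Pool.Agent.H8Q

open Pool.Agent.H80Pseudo

section

variable {G : Type*} [AddCommGroup G]

/-- The topology on `G` generated by the characters in `H`. -/
@[reducible] def topH (H : AddSubgroup (G →+ Circ)) : TopologicalSpace G :=
  joinTop ⊤ (fun h : H => (h : G →+ Circ))

/-- Characters of countable subgroups of `H` are evaluations. -/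
def Ev (H : AddSubgroup (G →+ Circ)) : Prop :=
  ∀ S : AddSubgroup (G →+ Circ), S ≤ H → (S : Set (G →+ Circ)).Countable →
    ∀ v : S →+ Circ, ∃ g : G, ∀ s : S, (s : G →+ Circ) g = v s

/-- Characters of countable subgroups of `W` are restrictions of members of `H`. -/
def Ext (W : AddSubgroup G) (H : AddSubgroup (G →+ Circ)) : Prop :=
  ∀ N : AddSubgroup G, N ≤ W → (N : Set G).Countable →
    ∀ χ : N →+ Circ, ∃ h ∈ H, ∀ x : N, h (x : G) = χ x

theorem isTopologicalAddGroup_indiscrete : @IsTopologicalAddGroup G ⊤ _ := by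
  let t : TopologicalSpace G := ⊤
  exact { continuous_add := continuous_top, continuous_neg := continuous_top }

theorem isTopologicalAddGroup_topH (H : AddSubgroup (G →+ Circ)) :
    @IsTopologicalAddGroup G (topH H) _ :=
  isTopologicalAddGroup_joinTop ⊤ isTopologicalAddGroup_indiscrete _

theorem continuous_topH (H : AddSubgroup (G →+ Circ)) {h : G →+ Circ} (hh : h ∈ H) :
    @Continuous G Circ (topH H) _ h :=
  continuous_joinTop ⊤ (fun h : H => (h : G →+ Circ)) ⟨h, hh⟩

/-- A point killed by all the characters is in all the neighbourhoods of `0`. -/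
theorem mem_nhds_topH (H : AddSubgroup (G →+ Circ)) {g : G} (hg : ∀ h ∈ H, h g = 0) {U : Set G}
    (hU : U ∈ @nhds G (topH H) 0) : g ∈ U := by
  let t : TopologicalSpace G := ⊤
  have ht : IsTopologicalAddGroup G := isTopologicalAddGroup_indiscrete
  obtain ⟨V, hV, F, ε, hε, h⟩ := mem_nhds_joinTop (fun h : H => (h : G →+ Circ)) hU
  apply h g
  · rw [_root_.nhds_top, Filter.mem_top] at hV
    rw [hV]
    trivial
  · intro α _
    rw [sub_zero, hg α α.2, norm_zero]
    exact hε

/-- `t` is finer than `topH H` if all the members of `H` are continuous for `t`. -/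
theorem le_topH (H : AddSubgroup (G →+ Circ)) (t : TopologicalSpace G)
    (h : ∀ χ ∈ H, @Continuous G Circ t _ χ) : t ≤ topH H := by
  refine le_inf le_top (le_iInf fun χ => ?_)
  exact continuous_iff_le_induced.1 (h χ.1 χ.2)

theorem PseudocompactSp.mono {X : Type*} {t t' : TopologicalSpace X} (h : t ≤ t')
    (ht : @PseudocompactSp X t) : @PseudocompactSp X t' :=
  fun f hf => ht f (@Continuous.comp X X ℝ t t' _ id f hf (continuous_id_iff_le.2 h))

/-- **Joining.** -/
theorem join_pc (H₂ : AddSubgroup (G →+ Circ)) (hpc : @PseudocompactSp G (topH H₂)) (e : ℕ)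
    {I : Type*} (F : I → G →+ Circ) (heF : ∀ i g, e • F i g = 0)
    (hrow : ∀ A : Set I, A.Countable → ∀ v : I → Circ, (∀ i, e • v i = 0) →
      ∃ g, (∀ h ∈ H₂, h g = 0) ∧ ∀ i ∈ A, F i g = v i) :
    @PseudocompactSp G (topH (AddSubgroup.closure (Set.range F) ⊔ H₂)) := by
  have h1 : @PseudocompactSp G (joinTop (topH H₂) F) := by
    refine @PseudocompactSp.joinTop G _ I (topH H₂) (isTopologicalAddGroup_topH H₂) hpc e F heF ?_
    intro V hV A hA v hv
    obtain ⟨g, hg, hgv⟩ := hrow A hA v hv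
    exact ⟨g, fun k => mem_nhds_topH H₂ hg (hV k), hgv⟩
  refine PseudocompactSp.mono (le_topH _ _ ?_) h1
  let t : TopologicalSpace G := joinTop (topH H₂) F
  have ht : IsTopologicalAddGroup G :=
    isTopologicalAddGroup_joinTop _ (isTopologicalAddGroup_topH H₂) F
  let C : AddSubgroup (G →+ Circ) :=
    { carrier := {χ | Continuous χ}
      zero_mem' := continuous_const
      add_mem' := fun {a b} ha hb => by
        have ha' : Continuous a := ha
        have hb' : Continuous b := hb
        exact ha'.add hb'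
      neg_mem' := fun {a} ha => by
        have ha' : Continuous a := ha
        exact ha'.neg }
  have hle : AddSubgroup.closure (Set.range F) ⊔ H₂ ≤ C := by
    refine sup_le ((AddSubgroup.closure_le _).2 ?_) ?_
    · rintro _ ⟨i, rfl⟩
      exact continuous_joinTop (topH H₂) F i
    · intro χ hχ
      have h2 : joinTop (topH H₂) F ≤ topH H₂ := inf_le_left
      exact continuous_le_dom h2 (continuous_topH H₂ hχ)
  exact fun χ hχ => hle hχ

theorem join_ev (H₂ : AddSubgroup (G →+ Circ)) (hev : Ev H₂) (e : ℕ)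
    {I : Type*} (F : I → G →+ Circ) (heF : ∀ i g, e • F i g = 0)
    (hrow : ∀ A : Set I, A.Countable → ∀ v : I → Circ, (∀ i, e • v i = 0) →
      ∃ g, (∀ h ∈ H₂, h g = 0) ∧ ∀ i ∈ A, F i g = v i) :
    Ev (AddSubgroup.closure (Set.range F) ⊔ H₂) := by
  classical
  intro S hS hSc v
  -- decompose the elements of `S`
  have hdec : ∀ s : S, ∃ (A : Finset I) (h : G →+ Circ), h ∈ H₂ ∧
      (s : G →+ Circ) - h ∈ AddSubgroup.closure (F '' (A : Set I)) := by
    intro s
    obtain ⟨c, hc, h, hh, hch⟩ := AddSubgroup.mem_sup.1 (hS s.2)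
    have hfin : ∀ c ∈ AddSubgroup.closure (Set.range F), ∃ A : Finset I,
        c ∈ AddSubgroup.closure (F '' (A : Set I)) := by
      intro c hc
      induction hc using AddSubgroup.closure_induction with
      | mem x hx =>
        obtain ⟨i, rfl⟩ := hx
        exact ⟨{i}, AddSubgroup.subset_closure ⟨i, by simp, rfl⟩⟩
      | zero => exact ⟨∅, AddSubgroup.zero_mem _⟩
      | add x y _ _ hx hy =>
        obtain ⟨A, hA⟩ := hx
        obtain ⟨B, hB⟩ := hy
        refine ⟨A ∪ B, AddSubgroup.add_mem _ ?_ ?_⟩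
        · exact AddSubgroup.closure_mono (Set.image_mono (by simp)) hA
        · exact AddSubgroup.closure_mono (Set.image_mono (by simp)) hB
      | neg x _ hx =>
        obtain ⟨A, hA⟩ := hx
        exact ⟨A, AddSubgroup.neg_mem _ hA⟩
    obtain ⟨A, hA⟩ := hfin c hc
    refine ⟨A, h, hh, ?_⟩
    rw [← hch, add_sub_cancel_right]
    exact hA
  choose A h hh hA using hdec
  have hSc' : Countable S := hSc.to_subtype
  let I₀ : Set I := ⋃ s : S, (A s : Set I)
  have hI₀ : I₀.Countable := Set.countable_iUnion fun s => Finset.countable_toSet _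
  let S₁ : AddSubgroup (G →+ Circ) := AddSubgroup.closure (Set.range h)
  have hS₁ : S₁ ≤ H₂ := (AddSubgroup.closure_le _).2 (by rintro _ ⟨s, rfl⟩; exact hh s)
  have hS₁c : (S₁ : Set (G →+ Circ)).Countable := by
    have := countable_closure (Set.countable_range h)
    exact Set.countable_coe_iff.1 this
  let S' : AddSubgroup (G →+ Circ) := AddSubgroup.closure (F '' I₀) ⊔ S₁
  have hSS' : S ≤ S' := by
    intro s hs
    have h1 := hA ⟨s, hs⟩
    have h2 : s - h ⟨s, hs⟩ ∈ AddSubgroup.closure (F '' I₀) := by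
      refine AddSubgroup.closure_mono (Set.image_mono ?_) h1
      exact Set.subset_iUnion (fun s : S => (A s : Set I)) ⟨s, hs⟩
    have h3 : h ⟨s, hs⟩ ∈ S₁ := AddSubgroup.subset_closure ⟨_, rfl⟩
    have h4 := AddSubgroup.add_mem_sup h2 h3
    rwa [sub_add_cancel] at h4
  obtain ⟨v', hv'⟩ := exists_extension (AddSubgroup.inclusion hSS')
    (AddSubgroup.inclusion_injective hSS') v
  have hS₁S' : S₁ ≤ S' := le_sup_right
  obtain ⟨g₁, hg₁⟩ := hev S₁ hS₁ hS₁c (v'.comp (AddSubgroup.inclusion hS₁S'))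
  have hFS' : ∀ i ∈ I₀, F i ∈ S' := fun i hi =>
    (le_sup_left : _ ≤ S') (AddSubgroup.subset_closure ⟨i, hi, rfl⟩)
  let w : I → Circ := fun i => if hi : i ∈ I₀ then v' ⟨F i, hFS' i hi⟩ - F i g₁ else 0
  have hw : ∀ i, e • w i = 0 := by
    intro i
    by_cases hi : i ∈ I₀
    · have h1 : w i = v' ⟨F i, hFS' i hi⟩ - F i g₁ := dif_pos hi
      rw [h1, smul_sub, heF, sub_zero, ← map_nsmul]
      have h2 : e • (⟨F i, hFS' i hi⟩ : S') = 0 := by
        apply Subtype.ext
        ext g
        exact heF i g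
      rw [h2, map_zero]
    · have h1 : w i = 0 := dif_neg hi
      rw [h1, smul_zero]
  obtain ⟨g₂, hg₂, hg₂w⟩ := hrow I₀ hI₀ w hw
  have key : ∀ s : S', (s : G →+ Circ) (g₁ + g₂) = v' s := by
    let E : AddSubgroup (G →+ Circ) :=
      { carrier := {s | ∃ hs : s ∈ S', s (g₁ + g₂) = v' ⟨s, hs⟩}
        zero_mem' := by
          refine ⟨S'.zero_mem, ?_⟩
          have h1 : (⟨0, S'.zero_mem⟩ : S') = 0 := rfl
          rw [h1, map_zero]
          rfl
        add_mem' := by
          rintro a b ⟨ha, ha'⟩ ⟨hb, hb'⟩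
          refine ⟨S'.add_mem ha hb, ?_⟩
          have h1 : (⟨a + b, S'.add_mem ha hb⟩ : S') = ⟨a, ha⟩ + ⟨b, hb⟩ := rfl
          have h2 : v' (⟨a, ha⟩ + ⟨b, hb⟩) = v' ⟨a, ha⟩ + v' ⟨b, hb⟩ := map_add v' _ _
          rw [h1, h2, ← ha', ← hb']
          rfl
        neg_mem' := by
          rintro a ⟨ha, ha'⟩
          refine ⟨S'.neg_mem ha, ?_⟩
          have h1 : (⟨-a, S'.neg_mem ha⟩ : S') = -⟨a, ha⟩ := rfl
          have h2 : v' (-⟨a, ha⟩) = -v' ⟨a, ha⟩ := map_neg v' _
          rw [h1, h2, ← ha']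
          rfl }
    have hE : S' ≤ E := by
      refine sup_le ((AddSubgroup.closure_le _).2 ?_) ?_
      · rintro _ ⟨i, hi, rfl⟩
        refine ⟨hFS' i hi, ?_⟩
        have h1 : w i = v' ⟨F i, hFS' i hi⟩ - F i g₁ := dif_pos hi
        rw [map_add, hg₂w i hi, h1, add_sub_cancel]
      · intro s hs
        refine ⟨hS₁S' hs, ?_⟩
        rw [map_add, hg₂ s (hS₁ hs), add_zero]
        exact hg₁ ⟨s, hs⟩
    intro s
    obtain ⟨hs, hs'⟩ := hE s.2
    exact hs'
  refine ⟨g₁ + g₂, fun s => ?_⟩
  have h1 := key (AddSubgroup.inclusion hSS' s)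
  rw [hv'] at h1
  exact h1

end

end Pool.Agent.H8Q
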