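import Mathlib
import Pool.Agent.Lib.H8Q.M3
import Pool.Agent.Lib.H8Q.M4
import Pool.Agent.Lib.H8Q.M5

/-!
# The peeling step, the last block
-/

open Set Filter Topology Cardinal

universe u

namespace Pool.Agent.H8Q

open Pool.Agent.H80Pseudo

/-- The three properties of a good group of characters. -/
structure Good {G : Type*} [AddCommGroup G] (W : AddSubgroup G) (H : AddSubgroup (G →+ Circ)) :
    Prop where
  ev : Ev H
  ext : Ext W H
  pc : @PseudocompactSp G (topH H)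

section Pull

variable {G G₁ : Type*} [AddCommGroup G] [AddCommGroup G₁]

/-- Composition with a homomorphism. -/
def pull (ρ : G →+ G₁) : (G₁ →+ Circ) →+ (G →+ Circ) where
  toFun h := h.comp ρ
  map_zero' := rfl
  map_add' _ _ := rfl

theorem pull_ev (ρ : G →+ G₁) (hρ : Function.Surjective ρ) (H₁ : AddSubgroup (G₁ →+ Circ))
    (h : Ev H₁) : Ev (H₁.map (pull ρ)) := by
  intro S hS hSc v
  have hinj : Function.Injective (pull ρ) := by
    intro a b hab
    ext x
    obtain ⟨y, rfl⟩ := hρ x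
    exact DFunLike.congr_fun hab y
  have hS₁ : S.comap (pull ρ) ≤ H₁ := by
    intro s hs
    obtain ⟨s', hs', hss'⟩ := hS hs
    rwa [← hinj hss']
  have hS₁c : (S.comap (pull ρ) : Set (G₁ →+ Circ)).Countable := hSc.preimage hinj
  let q : S.comap (pull ρ) →+ S :=
    { toFun := fun s => ⟨pull ρ s, s.2⟩
      map_zero' := rfl
      map_add' := fun _ _ => rfl }
  obtain ⟨g₁, hg₁⟩ := h _ hS₁ hS₁c (v.comp q)
  obtain ⟨g, rfl⟩ := hρ g₁
  refine ⟨g, fun s => ?_⟩
  obtain ⟨s', hs', hss'⟩ := hS s.2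
  have h1 : s' ∈ S.comap (pull ρ) := by
    change pull ρ s' ∈ S
    rw [hss']
    exact s.2
  have h2 := hg₁ ⟨s', h1⟩
  have h3 : q ⟨s', h1⟩ = s := Subtype.ext hss'
  have h4 : (s : G →+ Circ) g = s' (ρ g) := by
    rw [← hss']
    rfl
  rw [h4]
  have h5 : s' (ρ g) = v (q ⟨s', h1⟩) := h2
  rw [h5, h3]

theorem pull_pc (ρ : G →+ G₁) (hρ : Function.Surjective ρ) (H₁ : AddSubgroup (G₁ →+ Circ))
    (h : @PseudocompactSp G₁ (topH H₁)) : @PseudocompactSp G (topH (H₁.map (pull ρ))) := by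
  have h1 := @PseudocompactSp.induced G G₁ (topH H₁) h ρ hρ
  refine PseudocompactSp.mono (le_topH _ _ ?_) h1
  rintro _ ⟨s, hs, rfl⟩
  let t : TopologicalSpace G₁ := topH H₁
  let t' : TopologicalSpace G := TopologicalSpace.induced ρ (topH H₁)
  have h2 : Continuous s := continuous_topH H₁ hs
  have h3 : Continuous ρ := continuous_induced_dom
  exact h2.comp h3

end Pull

/-- The trivial group of characters. -/
theorem ev_bot {G : Type*} [AddCommGroup G] : Ev (⊥ : AddSubgroup (G →+ Circ)) := by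
  intro S hS _ v
  refine ⟨0, fun s => ?_⟩
  have h1 : s = 0 := Subtype.ext (hS s.2)
  have h2 : v s = 0 := by rw [h1, map_zero]
  rw [h2, map_zero]

theorem pc_bot {G : Type*} [AddCommGroup G] :
    @PseudocompactSp G (topH (⊥ : AddSubgroup (G →+ Circ))) := by
  intro f hf
  refine ⟨|f 0|, fun x => ?_⟩
  let t : TopologicalSpace G := topH (⊥ : AddSubgroup (G →+ Circ))
  have ht : IsTopologicalAddGroup G := isTopologicalAddGroup_topH _
  have h2 : Inseparable (0 : G) x := by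
    have h3 : ∀ y : G, ∀ U ∈ 𝓝 (0 : G), y ∈ U := fun y U hU =>
      mem_nhds_topH ⊥ (fun h hh => by rw [AddSubgroup.mem_bot.1 hh]; rfl) hU
    rw [inseparable_iff_forall_isOpen]
    intro O hO
    constructor
    · intro h0
      exact h3 x O (hO.mem_nhds h0)
    · intro hx
      have h4 : (fun y => y + x) ⁻¹' O ∈ 𝓝 (0 : G) := by
        apply (continuous_id.add continuous_const).continuousAt.preimage_mem_nhds
        simpa using hO.mem_nhds hx
      have h5 := h3 (0 - x) _ h4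
      simpa using h5
  have h3 : f 0 = f x := (h2.map hf).eq
  rw [h3]

/-- From sequences to countable subgroups. -/
theorem exists_col {G : Type u} [AddCommGroup G] {K I : Type u} (e : ℕ) (W : AddSubgroup G)
    (a : K → G →+ Circ) (haW : ∀ x ∈ W, (∀ k, a k x = 0) → ∃ g, e • g = x)
    (F : I → G →+ Circ)
    (hF : ∀ (w : ℕ → G) (χ : G →+ Circ),
        (∀ x ∈ AddSubgroup.closure (Set.range w), (∀ k, a k x = 0) → χ x = 0) →
        ∃ i, ∀ n, F i (w n) = χ (w n))
    (N : AddSubgroup G) (hN : N ≤ W) (hNc : (N : Set G).Countable) (χ : N →+ Circ)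
    (hχ : ∀ x : N, (∃ g, e • g = (x : G)) → χ x = 0) : ∃ i, ∀ x : N, F i x = χ x := by
  obtain ⟨w, hw⟩ := hNc.exists_eq_range ⟨0, N.zero_mem⟩
  obtain ⟨χ', hχ'⟩ := exists_extension N.subtype Subtype.val_injective χ
  have hcl : AddSubgroup.closure (Set.range w) = N := by
    rw [← hw, AddSubgroup.closure_eq]
  obtain ⟨i, hi⟩ := hF w χ' (by
    rw [hcl]
    intro x hx hax
    have h1 := hχ ⟨x, hx⟩ (haW x (hN hx) hax)
    rw [← hχ'] at h1
    exact h1)
  refine ⟨i, fun x => ?_⟩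
  have h1 : (x : G) ∈ Set.range w := by
    rw [← hw]
    exact x.2
  obtain ⟨n, hn⟩ := h1
  have h2 := hi n
  rw [hn] at h2
  rw [h2, ← hχ']
  rfl

/-- **The last block.** -/
theorem good_last {G : Type u} [AddCommGroup G] {ι K : Type u} [Infinite K] (hιK : ODense ι K)
    (b : ι → G) (ψ : G →+ (ι →₀ ℚ)) (hb : ∀ i, ψ (b i) = Finsupp.single i 1)
    (W : AddSubgroup G) (hW : #W ≤ 2 ^ #K) : ∃ H, Good W H := by
  obtain ⟨a, -, haW⟩ := exists_separating_mod (K := K) 0 W hW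
  obtain ⟨I, _, F, heF, hrow, hcol⟩ := block hιK 0 (1 : ℚ) (fun x => zero_smul ℕ x) (by
    intro c _
    obtain ⟨h, hh⟩ := exists_extension (Int.castAddHom ℚ) Int.cast_injective (zmultiplesHom Circ c)
    refine ⟨h, ?_⟩
    have h1 := hh 1
    simpa using h1) a (fun k g => zero_smul ℕ _) b ψ hb
  have hrow' : ∀ A : Set I, A.Countable → ∀ v : I → Circ, (∀ i, 0 • v i = 0) →
      ∃ g, (∀ h ∈ (⊥ : AddSubgroup (G →+ Circ)), h g = 0) ∧ ∀ i ∈ A, F i g = v i := by
    intro A hA v hv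
    obtain ⟨y, hy⟩ := hrow A hA v hv
    refine ⟨b y, fun h hh => ?_, hy⟩
    rw [AddSubgroup.mem_bot.1 hh]
    rfl
  refine ⟨AddSubgroup.closure (Set.range F) ⊔ ⊥, join_ev ⊥ ev_bot 0 F heF hrow', ?_,
    join_pc ⊥ pc_bot 0 F heF hrow'⟩
  intro N hN hNc χ
  obtain ⟨i, hi⟩ := exists_col 0 W a haW F hcol N hN hNc χ (by
    rintro x ⟨g, hg⟩
    have h1 : x = 0 := by
      apply Subtype.ext
      rw [← hg, zero_smul]
      rfl
    rw [h1, map_zero])
  exact ⟨F i, (le_sup_left : AddSubgroup.closure (Set.range F) ≤ _) (AddSubgroup.subset_closure ⟨i, rfl⟩), hi⟩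

/-- **The peeling step.** -/
theorem good_peel {G : Type u} [AddCommGroup G] {Y K : Type u} [Infinite K] (hYK : ODense Y K)
    (e : ℕ) (Φ : (Y →₀ ZMod e) →+ G) (π : G →+ (Y →₀ ZMod e)) (hπ : ∀ c, π (Φ c) = c)
    (W : AddSubgroup G) (hW : #W ≤ 2 ^ #K) (W₁ : AddSubgroup π.ker)
    (hW₁ : ∀ x ∈ W, (∃ g, e • g = x) → ∃ w ∈ W₁, (w : G) = x)
    (H₁ : AddSubgroup (π.ker →+ Circ)) (h₁ : Good W₁ H₁) : ∃ H, Good W H := by
  obtain ⟨a, ha, haW⟩ := exists_separating_mod (K := K) e W hW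
  have hΦ : ∀ y, π (Φ (Finsupp.single y 1)) = Finsupp.single y 1 := fun y => hπ _
  obtain ⟨I, _, F, heF, hrow, hcol⟩ := block hYK e (1 : ZMod e) (fun x => by
    rw [nsmul_eq_mul, ZMod.natCast_self, zero_mul]) (by
    intro c hc
    have hz : (zmultiplesHom Circ c) (e : ℤ) = 0 := by
      rw [zmultiplesHom_apply, natCast_zsmul]
      exact hc
    refine ⟨ZMod.lift e ⟨zmultiplesHom Circ c, hz⟩, ?_⟩
    have := ZMod.lift_coe e ⟨zmultiplesHom Circ c, hz⟩ 1
    simpa using this) a ha (fun y => Φ (Finsupp.single y 1)) π hΦ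
  -- the projection
  have hmem : ∀ x, x - Φ (π x) ∈ π.ker := by
    intro x
    rw [AddMonoidHom.mem_ker, map_sub, hπ, sub_self]
  let ρ : G →+ π.ker :=
    { toFun := fun x => ⟨x - Φ (π x), hmem x⟩
      map_zero' := Subtype.ext (by simp)
      map_add' := fun x y => Subtype.ext (by
        change x + y - Φ (π (x + y)) = (x - Φ (π x)) + (y - Φ (π y))
        rw [map_add, map_add]
        abel) }
  have hρker : ∀ w : π.ker, ρ (w : G) = w := by
    intro w
    apply Subtype.ext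
    change (w : G) - Φ (π w) = w
    have h1 : π (w : G) = 0 := w.2
    rw [h1, map_zero, sub_zero]
  have hρsurj : Function.Surjective ρ := fun w => ⟨w, hρker w⟩
  have hρΦ : ∀ c, ρ (Φ c) = 0 := by
    intro c
    apply Subtype.ext
    change Φ c - Φ (π (Φ c)) = 0
    rw [hπ, sub_self]
  have hrow' : ∀ A : Set I, A.Countable → ∀ v : I → Circ, (∀ i, e • v i = 0) →
      ∃ g, (∀ h ∈ H₁.map (pull ρ), h g = 0) ∧ ∀ i ∈ A, F i g = v i := by
    intro A hA v hv
    obtain ⟨y, hy⟩ := hrow A hA v hv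
    refine ⟨Φ (Finsupp.single y 1), ?_, hy⟩
    rintro _ ⟨h, hh, rfl⟩
    change h (ρ (Φ (Finsupp.single y 1))) = 0
    rw [hρΦ, map_zero]
  refine ⟨AddSubgroup.closure (Set.range F) ⊔ H₁.map (pull ρ),
    join_ev _ (pull_ev ρ hρsurj H₁ h₁.ev) e F heF hrow', ?_,
    join_pc _ (pull_pc ρ hρsurj H₁ h₁.pc) e F heF hrow'⟩
  intro N hN hNc χ
  -- the restriction to `W₁`
  let N₁ : AddSubgroup π.ker := W₁ ⊓ N.comap π.ker.subtype
  have hN₁c : (N₁ : Set π.ker).Countable := by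
    have h1 : (N.comap π.ker.subtype : Set π.ker).Countable :=
      hNc.preimage Subtype.val_injective
    exact h1.mono (by intro x hx; exact hx.2)
  let q : N₁ →+ N :=
    { toFun := fun x => ⟨((x : π.ker) : G), x.2.2⟩
      map_zero' := rfl
      map_add' := fun _ _ => rfl }
  obtain ⟨h, hh, hhχ⟩ := h₁.ext N₁ inf_le_left hN₁c (χ.comp q)
  obtain ⟨i, hi⟩ := exists_col e W a haW F hcol N hN hNc (χ - (pull ρ h).comp N.subtype) (by
    rintro x hx
    obtain ⟨w, hw, hwx⟩ := hW₁ x (hN x.2) hx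
    have hwN : w ∈ N₁ := ⟨hw, by
      change (w : G) ∈ N
      rw [hwx]
      exact x.2⟩
    have h1 := hhχ ⟨w, hwN⟩
    have h2 : q ⟨w, hwN⟩ = x := Subtype.ext hwx
    have h3 : h w = χ x := by
      rw [← h2]
      exact h1
    have h4 : ρ (x : G) = w := by
      rw [← hwx, hρker]
    rw [AddMonoidHom.sub_apply]
    change χ x - h (ρ (x : G)) = 0
    rw [h4, h3, sub_self])
  refine ⟨F i + pull ρ h, AddSubgroup.add_mem_sup (AddSubgroup.subset_closure ⟨i, rfl⟩)
    ⟨h, hh, rfl⟩, fun x => ?_⟩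
  rw [AddMonoidHom.add_apply, hi x, AddMonoidHom.sub_apply]
  change χ x - pull ρ h x + pull ρ h x = χ x
  rw [sub_add_cancel]

end Pool.Agent.H8Q
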