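import Mathlib
import Pool.Agent.Lib.H8Q.M0
import Pool.Agent.Lib.H50RF.S1

/-!
# Where the cardinality drops
-/

open Set Filter Topology Cardinal

universe u

namespace Pool.Agent.H8Q

open Pool.Agent.H80Pseudo

theorem mk_le_ker_mul {A B : Type u} [AddCommGroup A] [AddCommGroup B] (f : A →+ B) :
    #A ≤ #f.ker * #B := by
  have h1 := (AddSubgroup.addGroupEquivQuotientProdAddSubgroup (s := f.ker)).cardinal_eq
  rw [h1, Cardinal.mk_prod, Cardinal.lift_id, Cardinal.lift_id, mul_comm]
  refine mul_le_mul' le_rfl ?_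
  exact Cardinal.mk_le_of_injective (QuotientAddGroup.kerLift_injective f)

variable {G : Type u} [AddCommGroup G]

/-- The elements of `X` killed by `n`. -/
def torK (X : AddSubgroup G) (n : ℕ) : AddSubgroup G := X ⊓ (nsmulAddMonoidHom n : G →+ G).ker

theorem mem_torK {X : AddSubgroup G} {n : ℕ} {x : G} : x ∈ torK X n ↔ x ∈ X ∧ n • x = 0 := Iff.rfl

theorem mk_torK_mul_le (X : AddSubgroup G) (p n : ℕ) :
    #(torK X (p * n)) ≤ #(torK X p) * #(torK X n) := by
  have hmem : ∀ x : torK X (p * n), p • (x : G) ∈ torK X n := fun x =>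
    mem_torK.2 ⟨X.nsmul_mem x.2.1 p, by
      have h1 : (p * n) • (x : G) = 0 := x.2.2
      rw [smul_smul, mul_comm]
      exact h1⟩
  let f : torK X (p * n) →+ torK X n :=
    { toFun := fun x => ⟨p • (x : G), hmem x⟩
      map_zero' := Subtype.ext (smul_zero _)
      map_add' := fun x y => Subtype.ext (smul_add _ _ _) }
  refine (mk_le_ker_mul f).trans (mul_le_mul' ?_ le_rfl)
  have hinj : Function.Injective (fun x : f.ker => (⟨((x : torK X (p * n)) : G),
      mem_torK.2 ⟨x.1.2.1, congrArg Subtype.val x.2⟩⟩ : torK X p)) := by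
    intro x y hxy
    exact Subtype.ext (Subtype.ext (congrArg (fun z : torK X p => (z : G)) hxy))
  exact Cardinal.mk_le_of_injective hinj

theorem mk_torK_lt (X : AddSubgroup G) {lam : Cardinal.{u}} (hlam : ℵ₀ ≤ lam) (n : ℕ) (hn : n ≠ 0)
    (h : ∀ p : ℕ, p.Prime → p ∣ n → #(torK X p) < lam) : #(torK X n) < lam := by
  induction n using induction_on_primes with
  | zero => exact absurd rfl hn
  | one =>
    have h1 : Subsingleton (torK X 1) := by
      refine ⟨fun x y => ?_⟩
      have key : ∀ z : torK X 1, (z : G) = 0 := fun z => by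
        have h2 : 1 • (z : G) = 0 := z.2.2
        rwa [one_smul] at h2
      exact Subtype.ext ((key x).trans (key y).symm)
    have h2 : #(torK X 1) ≤ 1 := Cardinal.le_one_iff_subsingleton.2 h1
    exact h2.trans_lt (Cardinal.one_lt_aleph0.trans_le hlam)
  | prime_mul p n hp ih =>
    have hn' : n ≠ 0 := fun h0 => hn (by rw [h0, mul_zero])
    refine (mk_torK_mul_le X p n).trans_lt (Cardinal.mul_lt_of_lt hlam ?_ ?_)
    · exact h p hp (Dvd.intro _ rfl)
    · exact ih hn' fun q hq hqn => h q hq (hqn.mul_left p)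

/-- The socle of `(p ^ i * k) G`, `k = p ^ v * c`. -/
theorem torK_mulG {p : ℕ} (c v i : ℕ) (hc : Nat.Coprime p c) :
    torK (mulG G (p ^ i * (p ^ v * c))) p = soc G p (v + i) := by
  ext x
  rw [← Pool.Agent.H50RF.S1_mem_soc_mul hc]
  have e : p ^ i * (p ^ v * c) = p ^ (v + i) * c := by rw [pow_add]; ring
  rw [mem_torK, mem_mulG, e]
  exact and_comm

/-- **Where the cardinality drops.** -/
theorem exists_drop (k m : ℕ) (hk : k ≠ 0) (hm : m ≠ 0) (hinf : ℵ₀ ≤ #(mulG G k))
    (hlt : #(mulG G (k * m)) < #(mulG G k)) :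
    ∃ (p c v j : ℕ), p.Prime ∧ Nat.Coprime p c ∧ k = p ^ v * c ∧ 0 < j ∧ p ^ j ∣ m ∧
      #(soc G p (v + j - 1)) = #(mulG G k) ∧ #(soc G p (v + j)) < #(mulG G k) := by
  classical
  set X := mulG G k with hX
  -- a prime
  have h1 : ∃ p : ℕ, p.Prime ∧ p ∣ m ∧ #X ≤ #(torK X p) := by
    by_contra hcon
    push Not at hcon
    have h2 := mk_torK_lt X hinf m hm hcon
    have hmem : ∀ x : X, m • (x : G) ∈ mulG G (k * m) := by
      rintro ⟨_, g, rfl⟩
      refine ⟨g, ?_⟩
      change (k * m) • g = m • (k • g)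
      rw [mul_comm, mul_smul]
    let f : X →+ mulG G (k * m) :=
      { toFun := fun x => ⟨m • (x : G), hmem x⟩
        map_zero' := Subtype.ext (smul_zero _)
        map_add' := fun x y => Subtype.ext (smul_add _ _ _) }
    have h3 := mk_le_ker_mul f
    have h4 : #f.ker ≤ #(torK X m) := by
      have hinj : Function.Injective (fun x : f.ker => (⟨((x : X) : G),
          mem_torK.2 ⟨x.1.2, congrArg Subtype.val x.2⟩⟩ : torK X m)) := by
        intro x y hxy
        exact Subtype.ext (Subtype.ext (congrArg (fun z : torK X m => (z : G)) hxy))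
      exact Cardinal.mk_le_of_injective hinj
    exact absurd (h3.trans (mul_le_mul' h4 le_rfl))
      (not_le.2 (Cardinal.mul_lt_of_lt hinf h2 hlt))
  obtain ⟨p, hp, hpm, hpX⟩ := h1
  obtain ⟨v, c, hc, hkc⟩ := Nat.exists_eq_pow_mul_and_not_dvd hk p hp.ne_one
  obtain ⟨a, m', hm', hma⟩ := Nat.exists_eq_pow_mul_and_not_dvd hm p hp.ne_one
  have hcop : Nat.Coprime p c := (Nat.Prime.coprime_iff_not_dvd hp).2 hc
  have hcop' : Nat.Coprime p m' := (Nat.Prime.coprime_iff_not_dvd hp).2 hm'
  have hs0 : #X ≤ #(soc G p (v + 0)) := by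
    rw [← torK_mulG c v 0 hcop, pow_zero, one_mul, ← hkc]
    exact hpX
  have hsa : #(soc G p (v + a)) < #X := by
    have h2 : soc G p (v + a) ≤ mulG G (k * m) := by
      rw [← torK_mulG (c * m') v a (Nat.Coprime.mul_right hcop hcop')]
      intro x hx
      have h3 : p ^ a * (p ^ v * (c * m')) = k * m := by rw [hkc, hma]; ring
      rw [← h3]
      exact hx.1
    exact (Cardinal.mk_le_mk_of_subset h2).trans_lt hlt
  have hex : ∃ j, #(soc G p (v + j)) < #X := ⟨a, hsa⟩
  have hj := Nat.find_spec hex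
  have hjm := fun {i} (hi : i < Nat.find hex) => Nat.find_min hex hi
  have hja : Nat.find hex ≤ a := Nat.find_min' hex hsa
  have hj0 : 0 < Nat.find hex := by
    rcases Nat.eq_zero_or_pos (Nat.find hex) with h0 | h0
    · rw [h0] at hj
      exact absurd hj (not_lt.2 hs0)
    · exact h0
  generalize Nat.find hex = j at hj hjm hja hj0
  refine ⟨p, c, v, j, hp, hcop, hkc, hj0, ?_, ?_, hj⟩
  · rw [hma]
    exact (pow_dvd_pow p hja).mul_right m'
  · have h2 : v + j - 1 = v + (j - 1) := by omega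
    rw [h2]
    apply le_antisymm
    · have h3 : soc G p (v + (j - 1)) ≤ X := by
        rw [← torK_mulG c v (j - 1) hcop]
        intro x hx
        obtain ⟨g, hg⟩ := mem_mulG.1 hx.1
        refine ⟨p ^ (j - 1) • g, ?_⟩
        change k • (p ^ (j - 1) • g) = x
        rw [smul_smul, ← hg, hkc]
        congr 1
        ring
      exact Cardinal.mk_le_mk_of_subset h3
    · exact not_lt.1 (hjm (by omega))

end Pool.Agent.H8Q
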