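import Mathlib
import Pool.Agent.Lib.H8Q.M6

/-!
# The finite end of the recursion
-/

open Set Filter Topology Cardinal

universe u

namespace Pool.Agent.H8Q

open Pool.Agent.H80Pseudo

/-- A character as an additive character. -/
noncomputable def toAC {A : Type*} [AddCommGroup A] (χ : A →+ Circ) : AddChar A ℂ where
  toFun a := ((AddCircle.toCircle (χ a) : Circle) : ℂ)
  map_zero_eq_one' := by simp
  map_add_eq_mul' a b := by rw [map_add, AddCircle.toCircle_add]; rfl

theorem toAC_injective {A : Type*} [AddCommGroup A] :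
    Function.Injective (toAC : (A →+ Circ) → AddChar A ℂ) := by
  intro χ χ' h
  ext a
  have h1 : toAC χ a = toAC χ' a := by rw [h]
  have h2 : ((AddCircle.toCircle (χ a) : Circle) : ℂ) = ((AddCircle.toCircle (χ' a) : Circle) : ℂ) := h1
  exact AddCircle.injective_toCircle one_ne_zero (Circle.coe_injective h2)

theorem finite_hom (A : Type*) [AddCommGroup A] [Finite A] : Finite (A →+ Circ) :=
  Finite.of_injective toAC toAC_injective

theorem card_hom_le (A : Type*) [AddCommGroup A] [Finite A] : Nat.card (A →+ Circ) ≤ Nat.card A := by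
  classical
  have : Fintype A := Fintype.ofFinite A
  have h1 := AddChar.card_addChar_le A ℂ
  rw [← Nat.card_eq_fintype_card, ← Nat.card_eq_fintype_card] at h1
  exact (Nat.card_le_card_of_injective toAC toAC_injective).trans h1

theorem ev_top_finite {Q : Type*} [AddCommGroup Q] [Finite Q] :
    Ev (⊤ : AddSubgroup (Q →+ Circ)) := by
  intro S _ _ v
  obtain ⟨v', hv'⟩ := exists_extension S.subtype Subtype.val_injective v
  have h0 : Finite (Q →+ Circ) := finite_hom Q
  have h0' : Finite ((Q →+ Circ) →+ Circ) := finite_hom _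
  let E : Q → ((Q →+ Circ) →+ Circ) := fun q =>
    { toFun := fun χ => χ q
      map_zero' := rfl
      map_add' := fun _ _ => rfl }
  have hinj : Function.Injective E := by
    intro a b hab
    by_contra hne
    obtain ⟨φ, hφ⟩ := exists_character (sub_ne_zero.2 hne)
    apply hφ
    rw [map_sub, sub_eq_zero]
    exact DFunLike.congr_fun hab φ
  have hcard : Nat.card ((Q →+ Circ) →+ Circ) ≤ Nat.card Q := (card_hom_le _).trans (card_hom_le _)
  obtain ⟨q, hq⟩ := (hinj.bijective_of_nat_card_le hcard).2 v'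
  refine ⟨q, fun s => ?_⟩
  rw [← hv' s, ← hq]
  rfl

theorem pc_finite {Q : Type*} [AddCommGroup Q] [Finite Q] (t : TopologicalSpace Q) :
    @PseudocompactSp Q t := by
  intro f _
  obtain ⟨C, hC⟩ := (Set.finite_range fun x => |f x|).bddAbove
  exact ⟨C, fun x => hC ⟨x, rfl⟩⟩

/-- **The finite end.** -/
theorem good_finite {G : Type u} [AddCommGroup G] (k : ℕ) (hk : k ≠ 0)
    (hfin : Finite (mulG G k)) : ∃ H, Good (mulG G k) H := by
  classical
  set W := mulG G k with hW
  let m : ℕ := Nat.card W * k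
  have hm : 0 < m := Nat.mul_pos Nat.card_pos (Nat.pos_of_ne_zero hk)
  have hmG : ∀ g : G, m • g = 0 := by
    intro g
    have h1 : k • g ∈ W := ⟨g, rfl⟩
    have h2 : Nat.card W • (⟨k • g, h1⟩ : W) = 0 := card_nsmul_eq_zero'
    have h3 := congrArg Subtype.val h2
    change Nat.card W • (k • g) = 0 at h3
    rw [smul_smul] at h3
    exact h3
  have hchi : ∀ w : W, ∃ φ : G →+ Circ, w ≠ 0 → φ (w : G) ≠ 0 := by
    intro w
    by_cases hw : w = 0
    · exact ⟨0, fun h => absurd hw h⟩
    · obtain ⟨φ, hφ⟩ := exists_character (a := (w : G)) (fun h => hw (Subtype.ext h))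
      exact ⟨φ, fun _ => hφ⟩
  choose φ hφ using hchi
  let Ψ : G →+ (W → Circ) :=
    { toFun := fun g w => φ w g
      map_zero' := by
        funext w
        exact map_zero (φ w)
      map_add' := fun a b => by
        funext w
        exact map_add (φ w) a b }
  let Q := G ⧸ Ψ.ker
  have hfinT : Finite { u : Circ | m • u = 0 } := (AddCircle.finite_torsion (1 : ℝ) hm).to_subtype
  have hval : ∀ q : Q, ∀ w : W, (QuotientAddGroup.kerLift Ψ q) w ∈ { u : Circ | m • u = 0 } := by
    intro q w
    obtain ⟨g, rfl⟩ := QuotientAddGroup.mk_surjective q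
    have h1 : (QuotientAddGroup.kerLift Ψ (g : G ⧸ Ψ.ker)) w = φ w g := rfl
    have h2 : m • φ w g = 0 := by rw [← map_nsmul, hmG, map_zero]
    rw [h1]
    exact h2
  have hQ : Finite Q := by
    refine Finite.of_injective
      (fun q : Q => fun w : W => (⟨(QuotientAddGroup.kerLift Ψ q) w, hval q w⟩ :
        { u : Circ | m • u = 0 })) ?_
    intro a b hab
    apply QuotientAddGroup.kerLift_injective Ψ
    funext w
    exact congrArg Subtype.val (congrFun hab w)
  let ρ : G →+ Q := QuotientAddGroup.mk' Ψ.ker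
  have hρ : Function.Surjective ρ := QuotientAddGroup.mk'_surjective _
  refine ⟨(⊤ : AddSubgroup (Q →+ Circ)).map (pull ρ), pull_ev ρ hρ _ ev_top_finite, ?_,
    pull_pc ρ hρ _ (pc_finite _)⟩
  intro N hN _ χ
  have hinj : Function.Injective (ρ.comp N.subtype) := by
    rw [injective_iff_map_eq_zero]
    intro x hx
    have h1 : (x : G) ∈ Ψ.ker := (QuotientAddGroup.eq_zero_iff _).1 hx
    by_contra hne
    have h2 : (⟨(x : G), hN x.2⟩ : W) ≠ 0 := by
      intro h
      have h3 : (x : G) = 0 := congrArg (fun w : W => (w : G)) h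
      exact hne (Subtype.ext h3)
    apply hφ _ h2
    exact congrFun ((AddMonoidHom.mem_ker).1 h1) ⟨(x : G), hN x.2⟩
  obtain ⟨h, hh⟩ := exists_extension (ρ.comp N.subtype) hinj χ
  exact ⟨pull ρ h, ⟨h, trivial, rfl⟩, hh⟩

end Pool.Agent.H8Q
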