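import Mathlib
import Pool.Agent.Lib.H8Q.M6
import Pool.Agent.Lib.H8Q.M7
import Pool.Agent.Lib.H8Q.M8

/-!
# The recursion
-/

open Set Filter Topology Cardinal

universe u

namespace Pool.Agent.H8Q

open Pool.Agent.H80Pseudo

theorem ODense.congr {Y Y' K : Type*} (f : Y' ≃ Y) (h : ODense Y K) : ODense Y' K := by
  obtain ⟨d, hd⟩ := h
  refine ⟨fun y => d (f y), fun A hA v => ?_⟩
  obtain ⟨y, hy⟩ := hd A hA v
  refine ⟨f.symm y, fun k hk => ?_⟩
  have h1 : f (f.symm y) = y := f.apply_symm_apply y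
  change d (f (f.symm y)) k = v k
  rw [h1]
  exact hy k hk

/-- The numerical hypotheses of the recursion. -/
def Nums (G : Type u) [AddCommGroup G] (n₀ k : ℕ) : Prop :=
  (∀ n, k ∣ n → Infinite (mulG G n) →
    ∃ K : Type u, Infinite K ∧ ODense (mulG G n) K ∧ #(mulG G n) ≤ 2 ^ #K) ∧
  (Finite (mulG G n₀) ∨ ∃ (K ι : Type u) (b : ι → G) (ψ : G →+ (ι →₀ ℚ)), Infinite K ∧
    #(mulG G n₀) ≤ 2 ^ #K ∧ (∀ i, ψ (b i) = Finsupp.single i 1) ∧ ODense ι K)

section Ker

variable {G : Type u} [AddCommGroup G] {B : Type u} [AddCommGroup B]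

/-- The multiples of a complement. -/
theorem mem_mulG_ker {e : ℕ} (heB : ∀ x : B, e • x = 0) (Φ : B →+ G) (π : G →+ B)
    (hπ : ∀ c, π (Φ c) = c) {n : ℕ} (hen : e ∣ n) (x : G) :
    x ∈ mulG G n ↔ ∃ w ∈ mulG π.ker n, (w : G) = x := by
  constructor
  · rintro ⟨g, rfl⟩
    have hmem : g - Φ (π g) ∈ π.ker := by
      rw [AddMonoidHom.mem_ker, map_sub, hπ, sub_self]
    refine ⟨n • ⟨g - Φ (π g), hmem⟩, ⟨_, rfl⟩, ?_⟩
    obtain ⟨c, rfl⟩ := hen
    change (e * c) • (g - Φ (π g)) = (e * c) • g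
    have h1 : (e * c) • (π g) = 0 := by rw [mul_comm, mul_smul, heB, smul_zero]
    rw [smul_sub, ← map_nsmul, h1, map_zero, sub_zero]
  · rintro ⟨_, ⟨w, rfl⟩, rfl⟩
    exact ⟨(w : G), rfl⟩

/-- The multiples of the complement and of the group are the same. -/
theorem nonempty_mulG_equiv {e : ℕ} (heB : ∀ x : B, e • x = 0) (Φ : B →+ G) (π : G →+ B)
    (hπ : ∀ c, π (Φ c) = c) {n : ℕ} (hen : e ∣ n) :
    Nonempty (mulG π.ker n ≃ mulG G n) := by
  refine ⟨Equiv.ofBijective (fun w => ⟨((w : π.ker) : G),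
    (mem_mulG_ker heB Φ π hπ hen _).2 ⟨w.1, w.2, rfl⟩⟩) ⟨?_, ?_⟩⟩
  · intro a b hab
    exact Subtype.ext (Subtype.ext (congrArg (fun z : mulG G n => (z : G)) hab))
  · rintro ⟨x, hx⟩
    obtain ⟨w, hw, hwx⟩ := (mem_mulG_ker heB Φ π hπ hen x).1 hx
    exact ⟨⟨w, hw⟩, Subtype.ext hwx⟩

/-- The numerical hypotheses pass to the complement. -/
theorem Nums.ker {e : ℕ} (he : e ≠ 0) (heB : ∀ x : B, e • x = 0) (Φ : B →+ G) (π : G →+ B)
    (hπ : ∀ c, π (Φ c) = c) {n₀ k k' : ℕ} (hN : Nums G n₀ k) (hk : k ∣ k') (hek : e ∣ k')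
    (hkn : k' ∣ n₀) : Nums π.ker n₀ k' := by
  constructor
  · intro n hn hinf
    obtain ⟨f⟩ := nonempty_mulG_equiv heB Φ π hπ (hek.trans hn)
    have hinf' : Infinite (mulG G n) := f.infinite_iff.1 hinf
    obtain ⟨K, hK, hd, hc⟩ := hN.1 n (hk.trans hn) hinf'
    refine ⟨K, hK, hd.congr f, ?_⟩
    rw [f.cardinal_eq]
    exact hc
  · obtain ⟨f⟩ := nonempty_mulG_equiv heB Φ π hπ (hek.trans hkn)
    rcases hN.2 with hf | ⟨K, ι, b, ψ, hK, hc, hb, hd⟩
    · exact Or.inl (Finite.of_equiv _ f.symm)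
    · refine Or.inr ⟨K, ι, fun i => ⟨e • b i, ?_⟩,
        ((DistribSMul.toAddMonoidHom (ι →₀ ℚ) ((e : ℚ)⁻¹)).comp ψ).comp π.ker.subtype, hK, ?_, ?_, hd⟩
      · rw [AddMonoidHom.mem_ker, map_nsmul, heB]
      · rw [f.cardinal_eq]
        exact hc
      · intro i
        change (e : ℚ)⁻¹ • ψ (e • b i) = Finsupp.single i 1
        have he' : (e : ℚ) ≠ 0 := Nat.cast_ne_zero.2 he
        rw [map_nsmul, hb, ← Nat.cast_smul_eq_nsmul ℚ, smul_smul, inv_mul_cancel₀ he', one_smul]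

end Ker

/-- **The recursion.** -/
theorem good_rec (n₀ : ℕ) (hn₀ : n₀ ≠ 0) (m : ℕ) :
    ∀ (G : Type u) [AddCommGroup G] (k : ℕ), k * m = n₀ → Nums G n₀ k →
      ∃ H, Good (mulG G k) H := by
  induction m using Nat.strong_induction_on with
  | _ m ih =>
    intro G _ k hkm hN
    have hk : k ≠ 0 := by
      rintro rfl
      exact hn₀ (by rw [← hkm, zero_mul])
    have hm : m ≠ 0 := by
      rintro rfl
      exact hn₀ (by rw [← hkm, mul_zero])
    rcases finite_or_infinite (mulG G k) with hf | hinf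
    · exact good_finite k hk hf
    by_cases hle : #(mulG G k) ≤ #(mulG G n₀)
    · rcases hN.2 with hfin | ⟨K, ι, b, ψ, hK, hc, hb, hd⟩
      · exfalso
        have h1 : #(mulG G n₀) < ℵ₀ := Cardinal.lt_aleph0_of_finite _
        exact absurd (hle.trans_lt h1) (not_lt.2 (Cardinal.aleph0_le_mk _))
      · exact good_last hd b ψ hb _ (hle.trans hc)
    · rw [not_le] at hle
      have hle' : #(mulG G (k * m)) < #(mulG G k) := by rw [hkm]; exact hle
      obtain ⟨p, c, v, j, hp, hcop, hkc, hj, hjm, hs1, hs2⟩ :=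
        exists_drop k m hk hm (Cardinal.aleph0_le_mk _) hle'
      obtain ⟨K, hK, hd, hcard⟩ := hN.1 k dvd_rfl hinf
      obtain ⟨i, hi⟩ : ∃ i, v + j = i + 1 := ⟨v + j - 1, by omega⟩
      have hi' : v + j - 1 = i := by omega
      rw [hi'] at hs1
      rw [hi] at hs2
      have hsplit := Pool.Agent.H50RF.S1_split (G := G) hp i
        (by rw [hs1]; exact Cardinal.aleph0_le_mk _) (by rw [hs1]; exact hs2)
      obtain ⟨e, he_def⟩ : ∃ e, p ^ (i + 1) = e := ⟨_, rfl⟩
      rw [he_def] at hsplit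
      obtain ⟨Y, Φ, π, hY, hπ⟩ := hsplit
      rw [hs1] at hY
      obtain ⟨f⟩ := Cardinal.eq.1 hY
      have hYK : ODense Y K := hd.congr f
      have he : e ≠ 0 := by
        rw [← he_def]
        exact pow_ne_zero _ hp.ne_zero
      have heB : ∀ x : Y →₀ ZMod e, e • x = 0 := by
        intro x
        ext y
        rw [Finsupp.smul_apply, nsmul_eq_mul, ZMod.natCast_self, zero_mul]
        rfl
      obtain ⟨m', hm'⟩ := hjm
      have hpj : 1 < p ^ j := Nat.one_lt_pow hj.ne' hp.one_lt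
      have hm'0 : m' ≠ 0 := by
        rintro rfl
        exact hm (by rw [hm', mul_zero])
      have hm'lt : m' < m := by
        rw [hm']
        exact lt_mul_of_one_lt_left (Nat.pos_of_ne_zero hm'0) hpj
      have hek : k * p ^ j = e * c := by
        rw [← he_def, ← hi, hkc, pow_add]
        ring
      have hkn : k * p ^ j ∣ n₀ := ⟨m', by rw [← hkm, hm', mul_assoc]⟩
      have hN' : Nums π.ker n₀ (k * p ^ j) :=
        hN.ker he heB Φ π hπ (Dvd.intro _ rfl) ⟨c, hek⟩ hkn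
      obtain ⟨H₁, h₁⟩ := ih m' hm'lt π.ker (k * p ^ j) (by rw [← hkm, hm', mul_assoc]) hN'
      refine good_peel hYK e Φ π hπ (mulG G k) hcard (mulG π.ker (k * p ^ j)) ?_ H₁ h₁
      rintro x ⟨g, hg⟩ ⟨g', hg'⟩
      refine (mem_mulG_ker heB Φ π hπ ⟨c, hek⟩ x).1 ?_
      rw [hek]
      -- Bezout
      have hcop' : Nat.Coprime e c := by
        rw [← he_def]
        exact Nat.Coprime.pow_left _ hcop
      obtain ⟨a, b, hab⟩ : ∃ a b : ℤ, (e : ℤ) * a + (c : ℤ) * b = 1 :=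
        ⟨_, _, (Nat.gcd_eq_gcd_ab e c).symm.trans (by exact_mod_cast hcop')⟩
      refine ⟨(a * (p : ℤ) ^ v) • g + b • g', ?_⟩
      change (e * c) • ((a * (p : ℤ) ^ v) • g + b • g') = x
      have h1 : ((e : ℤ) * a + (c : ℤ) * b) • x = x := by rw [hab, one_smul]
      have hg1 : ((p : ℤ) ^ v * c) • g = x := by
        rw [← hg]
        change _ = k • g
        rw [hkc, ← natCast_zsmul]
        push_cast
        rfl
      have hg2 : (e : ℤ) • g' = x := by
        rw [← hg', natCast_zsmul]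
      rw [← natCast_zsmul, smul_add, smul_smul, smul_smul]
      have h2 : (((e * c : ℕ) : ℤ) * (a * (p : ℤ) ^ v)) • g = ((e : ℤ) * a) • x := by
        rw [← hg1, smul_smul]
        congr 1
        push_cast
        ring
      have h3 : (((e * c : ℕ) : ℤ) * b) • g' = ((c : ℤ) * b) • x := by
        rw [← hg2, smul_smul]
        congr 1
        push_cast
        ring
      rw [h2, h3, ← add_smul]
      exact h1

end Pool.Agent.H8Q
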