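import Mathlib
import Pool.Agent.Lib.H8Q.M9
import Pool.Agent.Lib.H43P.D11
import Pool.Agent.Lib.H50RF.Defs

/-!
# The good group of characters

`exists_goodOn`: an abelian group with a pseudocompact Hausdorff group topology has a group `H` of
characters such that (1) every character of a countable subgroup of `H` is the evaluation at a point
of `G`, (2) every character of a countable subgroup of `G` is the restriction of a member of `H`,
(3) the topology generated by `H` is pseudocompact.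
-/

open Set Filter Topology Cardinal

universe u

namespace Pool.Agent.H8Q

open Pool.Agent.H80Pseudo

theorem mulG_one (G : Type*) [AddCommGroup G] : mulG G 1 = ⊤ := by
  rw [AddSubgroup.eq_top_iff']
  intro x
  exact ⟨x, one_smul ℕ x⟩

theorem exists_good {G : Type u} [AddCommGroup G] [TopologicalSpace G] [IsTopologicalAddGroup G]
    [T2Space G] (hG : PseudocompactSp G) : ∃ H, Good (⊤ : AddSubgroup G) H := by
  have key : ∃ n₀ : ℕ, n₀ ≠ 0 ∧ Nums G n₀ 1 := by
    have h1 : ∀ n, 1 ∣ n → Infinite (mulG G n) →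
        ∃ K : Type u, Infinite K ∧ ODense (mulG G n) K ∧ #(mulG G n) ≤ 2 ^ #K :=
      fun n _ hinf => Pool.Agent.Lib.H43P.numbers1 hG n hinf
    by_cases hfin : ∃ n : ℕ, 0 < n ∧ Finite (mulG G n)
    · obtain ⟨n, hn, hf⟩ := hfin
      exact ⟨n, hn.ne', h1, Or.inl hf⟩
    · have hinf : ∀ n : ℕ, 0 < n → Infinite (mulG G n) := fun n hn =>
        not_finite_iff_infinite.1 fun h => hfin ⟨n, hn, h⟩
      obtain ⟨n₀, hn₀, -, K, hK, hc, ι, b, ψ, hb, hd⟩ := Pool.Agent.Lib.H43P.numbers2 hG hinf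
      exact ⟨n₀, hn₀.ne', h1, Or.inr ⟨K, ι, b, ψ, hK, hc, hb, hd⟩⟩
  obtain ⟨n₀, hn₀, hN⟩ := key
  have h2 := good_rec n₀ hn₀ n₀ G 1 (one_mul n₀) hN
  rwa [mulG_one] at h2

/-- **Existence.** -/
theorem exists_goodOn {G : Type u} [AddCommGroup G] [TopologicalSpace G] [IsTopologicalAddGroup G]
    [T2Space G] (hG : PseudocompactSp G) :
    ∃ H, Pool.Agent.H50RF.GoodOn (⊤ : AddSubgroup G) H := by
  obtain ⟨H, hH⟩ := exists_good hG
  exact ⟨H, hH.ev, hH.ext, hH.pc⟩

end Pool.Agent.H8Q
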