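import Mathlib
import Pool.Agent.Lib.H50RF.A4
import Pool.Agent.Lib.H8Q.M5

/-!
# Separable pseudocompact subsets are finite
-/

open Set Filter Topology

namespace Pool.Agent.H8N

open Pool.Agent.H80Pseudo
open Pool.Agent.H50RF (CExt topB topH GoodOn finite_of_isCompact IsReflexive)

/-- A countable pseudocompact completely regular space is compact. -/
theorem compactSpace_of_countable {X : Type*} [TopologicalSpace X] [CompletelyRegularSpace X]
    [Countable X] (h : PseudocompactSp X) : CompactSpace X := by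
  classical
  refine ⟨isCompact_of_finite_subcover ?_⟩
  intro ι U hU hcov
  rcases isEmpty_or_nonempty X with hX | hX
  · exact ⟨∅, fun x _ => (hX.false x).elim⟩
  obtain ⟨x, hx⟩ := exists_surjective_nat X
  have hi : ∀ n, ∃ i, x n ∈ U i := fun n => mem_iUnion.1 (hcov (mem_univ (x n)))
  choose i hi using hi
  have hf : ∀ n, ∃ f : X → ℝ, Continuous f ∧ (∀ y, 0 ≤ f y) ∧ (∀ y, f y ≤ 1) ∧ f (x n) = 1 ∧
      ∀ y, y ∉ U (i n) → f y = 0 := by
    intro n
    obtain ⟨f, hf1, hf2, hf3⟩ := CompletelyRegularSpace.completely_regular (x n) (U (i n))ᶜ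
      (hU _).isClosed_compl (fun hn => hn (hi n))
    refine ⟨fun y => 1 - (f y : ℝ), continuous_const.sub (continuous_subtype_val.comp hf1),
      fun y => sub_nonneg.2 (f y).2.2, fun y => sub_le_self _ (f y).2.1, ?_, fun y hy => ?_⟩
    · change 1 - (f (x n) : ℝ) = 1
      rw [hf2]
      simp
    · change 1 - (f y : ℝ) = 0
      rw [hf3 hy]
      simp
  choose f hfc hf0 hf1 hfx hfU using hf
  have hsum : ∀ y, Summable fun n => (1/2 : ℝ) ^ n * f n y := by
    intro y
    refine Summable.of_nonneg_of_le (fun n => mul_nonneg (by positivity) (hf0 n y)) (fun n => ?_)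
      summable_geometric_two
    exact mul_le_of_le_one_right (by positivity) (hf1 n y)
  let g : X → ℝ := fun y => ∑' n, (1/2 : ℝ) ^ n * f n y
  have hgc : Continuous g := by
    refine continuous_tsum (fun n => continuous_const.mul (hfc n)) summable_geometric_two
      (fun n y => ?_)
    rw [Real.norm_of_nonneg (mul_nonneg (by positivity) (hf0 n y))]
    exact mul_le_of_le_one_right (by positivity) (hf1 n y)
  have hgpos : ∀ y, 0 < g y := by
    intro y
    obtain ⟨n, rfl⟩ := hx y
    have h1 : (1/2 : ℝ) ^ n * f n (x n) ≤ g (x n) :=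
      (hsum (x n)).le_tsum n fun m _ => mul_nonneg (by positivity) (hf0 m (x n))
    rw [hfx, mul_one] at h1
    exact lt_of_lt_of_le (by positivity) h1
  obtain ⟨C, hC⟩ := h (fun y => (g y)⁻¹) (hgc.inv₀ fun y => (hgpos y).ne')
  have hC0 : 0 < C := by
    obtain ⟨y⟩ := hX
    exact lt_of_lt_of_le (abs_pos.2 (inv_ne_zero (hgpos y).ne')) (hC y)
  obtain ⟨N, hN⟩ : ∃ N : ℕ, (1/2 : ℝ) ^ N * 2 < C⁻¹ := by
    obtain ⟨N, hN⟩ := exists_pow_lt_of_lt_one (show (0:ℝ) < C⁻¹ / 2 by positivity)
      (show (1/2 : ℝ) < 1 by norm_num)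
    exact ⟨N, by linarith⟩
  refine ⟨(Finset.range N).image i, fun y _ => ?_⟩
  by_contra hcon
  have hz : ∀ n < N, f n y = 0 := by
    intro n hn
    apply hfU
    intro hyn
    apply hcon
    exact mem_iUnion₂.2 ⟨i n, Finset.mem_image_of_mem _ (Finset.mem_range.2 hn), hyn⟩
  have h1 : g y ≤ (1/2 : ℝ) ^ N * 2 := by
    have h2 := (hsum y).sum_add_tsum_nat_add N
    have h3 : ∑ n ∈ Finset.range N, (1/2 : ℝ) ^ n * f n y = 0 :=
      Finset.sum_eq_zero fun n hn => by rw [hz n (Finset.mem_range.1 hn), mul_zero]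
    rw [h3, zero_add] at h2
    have h4 : g y = ∑' n, (1/2 : ℝ) ^ (n + N) * f (n + N) y := h2.symm
    have h6 : (1/2 : ℝ) ^ N * 2 = ∑' n : ℕ, (1/2 : ℝ) ^ N * (1/2 : ℝ) ^ n := by
      rw [tsum_mul_left, tsum_geometric_two]
    rw [h4, h6]
    refine Summable.tsum_le_tsum (fun n => ?_) ((summable_nat_add_iff N).2 (hsum y))
      (summable_geometric_two.mul_left _)
    have h5 : (1/2 : ℝ) ^ (n + N) = (1/2 : ℝ) ^ N * (1/2 : ℝ) ^ n := by rw [pow_add, mul_comm]
    rw [h5]
    exact mul_le_of_le_one_right (by positivity) (hf1 _ y)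
  have h2 : C⁻¹ ≤ g y := by
    have h3 := hC y
    rw [abs_of_pos (inv_pos.2 (hgpos y))] at h3
    exact (inv_le_comm₀ (hgpos y) hC0).1 h3
  linarith

section

variable {G : Type*} [AddCommGroup G] {H : AddSubgroup (G →+ Circ)}

/-- The closure of a countable set is countable. -/
theorem closure_subset (h : GoodOn ⊤ H) {c : Set G} (hc : c.Countable) :
    @closure G (topH H) c ⊆ (AddSubgroup.closure c : Set G) := by
  intro g hg
  by_contra hgN
  let t : TopologicalSpace G := topH H
  have h1 : (QuotientAddGroup.mk g : G ⧸ AddSubgroup.closure c) ≠ 0 := by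
    intro h0
    exact hgN ((QuotientAddGroup.eq_zero_iff g).1 h0)
  obtain ⟨φ, hφ⟩ := exists_character h1
  have hc' : (insert g c).Countable := hc.insert g
  obtain ⟨k, hk, hkφ⟩ := h.ext (AddSubgroup.closure (insert g c)) le_top
    (countable_closure hc').to_set
    ((φ.comp (QuotientAddGroup.mk' (AddSubgroup.closure c))).comp
      (AddSubgroup.closure (insert g c)).subtype)
  have hcont : Continuous k := Pool.Agent.H8Q.continuous_topH H hk
  have h2 : closure c ⊆ {x | k x = 0} := by
    refine closure_minimal ?_ (isClosed_singleton.preimage hcont)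
    intro x hx
    have h3 := hkφ ⟨x, AddSubgroup.subset_closure (mem_insert_of_mem _ hx)⟩
    have h4 : (QuotientAddGroup.mk x : G ⧸ AddSubgroup.closure c) = 0 :=
      (QuotientAddGroup.eq_zero_iff x).2 (AddSubgroup.subset_closure hx)
    have h5 : k x = φ (QuotientAddGroup.mk x : G ⧸ AddSubgroup.closure c) := h3
    rw [h4, map_zero] at h5
    exact h5
  have h3 : k g = 0 := h2 hg
  have h4 := hkφ ⟨g, AddSubgroup.subset_closure (mem_insert _ _)⟩
  have h5 : k g = φ (QuotientAddGroup.mk g : G ⧸ AddSubgroup.closure c) := h4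
  exact hφ (h5.symm.trans h3)

theorem finite_of_separable (h : GoodOn ⊤ H) (S : Set G)
    (hS : @TopologicalSpace.IsSeparable G (topH H) S)
    (hpc : @PseudocompactSp S (TopologicalSpace.induced Subtype.val (topH H))) : S.Finite := by
  let t : TopologicalSpace G := topH H
  have ht : IsTopologicalAddGroup G := Pool.Agent.H8Q.isTopologicalAddGroup_topH H
  let u : UniformSpace G := IsTopologicalAddGroup.rightUniformSpace G
  have hcr : CompletelyRegularSpace G := UniformSpace.toCompletelyRegularSpace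
  obtain ⟨c, hc, hSc⟩ := hS
  have hcount : S.Countable :=
    ((countable_closure hc).to_set).mono (hSc.trans (closure_subset h hc))
  have : Countable S := hcount.to_subtype
  have hcpt : CompactSpace S := compactSpace_of_countable hpc
  exact finite_of_isCompact h.cext_flip (isCompact_iff_compactSpace.2 hcpt)

/-- The final properties. -/
theorem final [Infinite G] (h : GoodOn ⊤ H) :
    ∃ t : TopologicalSpace G, @IsTopologicalAddGroup G t _ ∧ @T2Space G t ∧ @PseudocompactSp G t ∧
      ¬ @SelectivelyPseudocompactSp G t ∧ @IsReflexive G _ t ∧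
      ∀ S : Set G, @TopologicalSpace.IsSeparable G t S →
        @PseudocompactSp S (TopologicalSpace.induced Subtype.val t) → S.Finite :=
  ⟨topB H.subtype.flip, Pool.Agent.H50RF.isTopologicalAddGroup_topB _,
    Pool.Agent.H50RF.t2_topB _ h.cext_flip, h.pc, Pool.Agent.H50RF.not_sel h.cext h.cext_flip,
    Pool.Agent.H50RF.isReflexive_TB h.cext h.cext_flip, finite_of_separable h⟩

end

end Pool.Agent.H8N
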